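import Pool.Agent.Lib.LinSpace.Machine

/-!
Context-free grammars with commutative control.
-/

set_option autoImplicit false

namespace Pool.Agent.Lib.LinSpace

/-- A context-free grammar with commutative control over the terminal alphabet `A`. The control
has finitely many states and moves. A move leads from one state to another and applies one
context-free rule to one occurrence of its left side (or leaves the sentential form unchanged);
it is allowed only if the sentential form belongs to a given language, which must be closed under
all permutations of letters and deterministic context-sensitive. The rules may be erasing. -/
structure ControlledGrammar (A : Type) where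
  /-- the nonterminals -/
  N : Type
  /-- the states of the control -/
  Q : Type
  /-- the moves of the control -/
  M : Type
  /-- there are finitely many nonterminals -/
  finN : Finite N
  /-- there are finitely many states -/
  finQ : Finite Q
  /-- there are finitely many moves -/
  finM : Finite M
  /-- the start symbol -/
  start : N
  /-- the initial state -/
  init : Q
  /-- the final states -/
  final : Set Q
  /-- the state in which a move can be made -/
  src : M → Q
  /-- the state after the move -/
  tgt : M → Q
  /-- the context-free rule applied by the move; `none`: the sentential form is not changed -/
  rule : M → Option (N × List (N ⊕ A))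
  /-- the move can be made if the sentential form belongs to this language -/
  cond : M → Language (N ⊕ A)
  /-- the conditions do not depend on the order of the letters -/
  cond_perm : ∀ m u v, List.Perm u v → u ∈ cond m → v ∈ cond m
  /-- the conditions are deterministic context-sensitive languages -/
  cond_dcs : ∀ m, cond m ∈ DCS (N ⊕ A)

namespace ControlledGrammar

variable {A : Type}

/-- One step of a derivation. -/
inductive Step (G : ControlledGrammar A) :
    G.Q × List (G.N ⊕ A) → G.Q × List (G.N ⊕ A) → Prop
  | skip (m : G.M) (u : List (G.N ⊕ A)) :
      G.rule m = none → u ∈ G.cond m → Step G (G.src m, u) (G.tgt m, u)
  | apply (m : G.M) (X : G.N) (x u v : List (G.N ⊕ A)) :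
      G.rule m = some (X, x) → u ++ [Sum.inl X] ++ v ∈ G.cond m →
      Step G (G.src m, u ++ [Sum.inl X] ++ v) (G.tgt m, u ++ x ++ v)

/-- The word `w` has a derivation, from the start symbol and the initial state to a final state,
in which all sentential forms have length at most `B`. -/
def DerivesWithin (G : ControlledGrammar A) (B : ℕ) (w : List A) : Prop :=
  ∃ q ∈ G.final, Relation.ReflTransGen
    (fun x y => G.Step x y ∧ x.2.length ≤ B ∧ y.2.length ≤ B)
    (G.init, [Sum.inl G.start]) (q, w.map Sum.inr)

/-- The language generated with linear workspace: the words `w` that have a derivation in which
all sentential forms have length at most `K * |w| + K`. -/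
def languageWithin (G : ControlledGrammar A) (K : ℕ) : Language A :=
  {w | G.DerivesWithin (K * w.length + K) w}

end ControlledGrammar

end Pool.Agent.Lib.LinSpace
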