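import Pool.Agent.Lib.LinSpace.Reg.Num
import Pool.Agent.Lib.LinSpace.Reg.Grammar
import Pool.Agent.Lib.LinSpace.Sim

section

/-! Composition of runs: annotated obligations. -/

set_option autoImplicit false

namespace Pool.Agent.Lib.LinSpace.Reg

variable {V Q M : Type} {α β γ : Type} {S : Sys V Q M} {W : ℕ}

/-- Annotated final configurations. -/
private theorem annot_fin {D : Multiset (V × List (V × List V))} {F T : Multiset V}
    (h : fin F T = D.map (tm (List.map Prod.fst))) :
    D = (tl D).map (fun e => (e.1, [e])) + T.map (fun a => (a, [])) := by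
  classical
  set E := D.filter (fun i => i.2 ≠ []) with hE
  set G := D.filter (fun i => ¬ i.2 ≠ []) with hG
  have hEG : E + G = D := Multiset.filter_add_not _ D
  have h1 : E.map (tm (List.map Prod.fst)) = F.map (fun a => (a, [a])) := by
    have := congrArg (Multiset.filter (fun i : V × List V => i.2 ≠ [])) h
    rw [fin, Multiset.filter_add, Multiset.filter_eq_self.2, Multiset.filter_eq_nil.2, add_zero,
      Multiset.filter_map] at this
    · rw [this, hE]
      congr 1
      apply Multiset.filter_congr
      intro i _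
      simp [tm]
    · intro a ha
      obtain ⟨b, -, rfl⟩ := Multiset.mem_map.1 ha
      simp
    · intro a ha
      obtain ⟨b, -, rfl⟩ := Multiset.mem_map.1 ha
      simp
  have h2 : G.map (tm (List.map Prod.fst)) = T.map (fun a => (a, [])) := by
    have := congrArg (Multiset.filter (fun i : V × List V => ¬ i.2 ≠ [])) h
    rw [fin, Multiset.filter_add, Multiset.filter_eq_nil.2, Multiset.filter_eq_self.2, zero_add,
      Multiset.filter_map] at this
    · rw [this, hG]
      congr 1
      apply Multiset.filter_congr
      intro i _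
      simp [tm]
    · intro a ha
      obtain ⟨b, -, rfl⟩ := Multiset.mem_map.1 ha
      simp
    · intro a ha
      obtain ⟨b, -, rfl⟩ := Multiset.mem_map.1 ha
      simp
  have h3 : (tl E).map (fun e => ((e.1, [e]) : V × List (V × List V))) = E := by
    rw [tl, Multiset.map_bind]
    have : ∀ i ∈ E, ((i.2 : Multiset (V × List V)).map
        (fun e => ((e.1, [e]) : V × List (V × List V)))) = {i} := by
      intro i hi
      have h4 : tm (List.map Prod.fst) i ∈ F.map (fun a => (a, [a])) := by
        rw [← h1]; exact Multiset.mem_map_of_mem _ hi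
      obtain ⟨a, -, ha⟩ := Multiset.mem_map.1 h4
      obtain ⟨b, u⟩ := i
      simp only [tm, Prod.mk.injEq] at ha
      obtain ⟨rfl, ha⟩ := ha
      match u, ha with
      | [e], ha =>
        simp only [List.map_cons, List.map_nil, List.cons.injEq, and_true] at ha
        subst ha
        rfl
      | e :: e' :: u, ha => simp at ha
    calc E.bind (fun i => ((i.2 : Multiset (V × List V)).map
          (fun e => ((e.1, [e]) : V × List (V × List V)))))
        = E.bind (fun i => {id i}) := Multiset.bind_congr this
      _ = E := by rw [Multiset.bind_singleton, Multiset.map_id]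
  have h4 : ∀ i ∈ G, i.2 = [] := by
    intro i hi
    have := (Multiset.mem_filter.1 hi).2
    simpa using this
  have h5 : T.map (fun a => ((a, []) : V × List (V × List V))) = G := by
    have h6 : G.map Prod.fst = T := by
      have := congrArg (Multiset.map Prod.fst) h2
      simpa [Multiset.map_map, tm, Function.comp_def] using this
    rw [← h6, Multiset.map_map]
    conv_rhs => rw [← Multiset.map_id G]
    apply Multiset.map_congr rfl
    intro i hi
    have := h4 i hi
    obtain ⟨b, u⟩ := i
    change u = [] at this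
    subst this
    rfl
  have h6 : tl G = 0 := by
    rw [tl, Multiset.bind_congr (g := fun _ => 0)]
    · simp
    · intro i hi
      rw [h4 i hi]
      rfl
  have h7 : tl D = tl E := by
    rw [← hEG]
    have : tl (E + G) = tl E + tl G := by simp [tl]
    rw [this, h6, add_zero]
  rw [h7, h3, h5, hEG]

theorem J.compose {q p q' : Q} {D : Multiset (V × List (V × List V))} {T T' : Multiset V}
    (h1 : J S W q (D.map (tm (List.map Prod.fst))) T' p)
    (h2 : J S W p (tl D + T'.map fun a => (a, [])) T q') :
    J S W q (D.map (tm fun u => u.flatMap Prod.snd)) T q' := by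
  unfold J at h1 h2 ⊢
  obtain ⟨D', hD', hrun⟩ := Run.lift Prod.fst h1
  have htl : tl D' = tl D := Run.tl_eq hrun
  have hD := annot_fin hD'
  have hpush := Run.push Prod.snd hrun
  have htl2 := Run.tl_eq hpush
  simp only at htl2
  have hmap : D'.map (tm fun u => u.flatMap Prod.snd) = tl D + T'.map (fun a => (a, [])) := by
    rw [← htl]
    conv_lhs => rw [hD]
    rw [Multiset.map_add, Multiset.map_map, Multiset.map_map]
    congr 1
    conv_rhs => rw [← Multiset.map_id (tl D')]
    apply Multiset.map_congr rfl
    intro e _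
    simp [tm]
  rw [hmap] at hpush htl2
  rw [← htl2]
  exact hpush.trans h2

end Pool.Agent.Lib.LinSpace.Reg
end

section

/-!
Deciding runs between configurations with bounded targets: Savitch's method with splitting into
many parts.
-/

set_option autoImplicit false
set_option linter.unusedSimpArgs false

namespace Pool.Agent.Lib.LinSpace.Reg

open RecN

/-- Configurations as lists. -/
abbrev Cf (V Q : Type) := Q × List (V × List V)

/-- Instances: bound for the number of obligations, fuel, end of the recursion, two
configurations. -/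
abbrev BI (V Q : Type) := (List Bool × List Bool) × (Bool × (Cf V Q × Cf V Q))

/-- Guesses: end of the recursion, fuel, configurations in between. -/
abbrev BG (Q : Type) := (Bool × List Bool) × List (Q × List (List Bool))

variable {V Q M : Type}

/-- The configurations in between. -/
def bpt (ts : List (V × List V)) (d : Q × List (List Bool)) (r : ℕ) (p : BI V Q × BG Q) :
    ℕ → Cf V Q
  | 0 => p.1.2.2.1
  | i + 1 => if i + 1 = r then p.1.2.2.2 else
      (((p.2.2.drop i).headD d).1, expandAll ts p.1.1.1 ((p.2.2.drop i).headD d).2)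

/-- The subinstances. -/
def bchild (ts : List (V × List V)) (d : Q × List (List Bool)) (r : ℕ) (i : ℕ)
    (p : BI V Q × BG Q) : BI V Q :=
  ((p.1.1.1, p.2.1.2), (p.2.1.1, (bpt ts d r p i, bpt ts d r p (i + 1))))

/-- The subinstances, by unary numbers. -/
def bch (ts : List (V × List V)) (d : Q × List (List Bool)) (r : ℕ) :
    ℕ → (BI V Q × BG Q) × List Bool → BI V Q
  | 0, p => bchild ts d r 0 p.1
  | n + 1, p => if decide (p.2 = un n) then bchild ts d r n p.1 else bch ts d r n p

theorem bch_eq (ts : List (V × List V)) (d : Q × List (List Bool)) (r : ℕ) (n i : ℕ)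
    (hi : i < n) (p : BI V Q × BG Q) : bch ts d r n (p, un i) = bchild ts d r i p := by
  induction n with
  | zero => omega
  | succ n ih =>
    rw [bch]
    by_cases h : i = n
    · subst h; simp
    · have h1 : ¬ (un i = un n) := by
        intro e
        have := congrArg List.length e
        rw [List.length_replicate, List.length_replicate] at this
        exact h this
      simp only [h1, decide_false, Bool.false_eq_true, if_false]
      exact ih (by omega)

/-- End of the recursion. -/
def bbase (x : BI V Q) : Bool := x.2.1 || x.1.2.isEmpty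

/-- The value at the end of the recursion. -/
noncomputable def bval (st : List Bool × (Cf V Q × Cf V Q) → Bool) (x : BI V Q) : Bool := by
  classical
  exact (decide (x.2.2.1.1 = x.2.2.2.1) && decide ((x.2.2.1.2).Perm x.2.2.2.2)) ||
    st (x.1.1, x.2.2)

theorem lin_drop {α γ : Type} [Enc α] [Enc γ] {l : α → List γ} (hl : Lin l) (n : ℕ) :
    Lin (fun x => (l x).drop n) := by
  induction n with
  | zero => exact hl.of_eq fun x => by simp
  | succ n ih => exact ih.tail.of_eq fun x => by rw [List.tail_drop]

section Lin

variable [Enc V] [Enc Q]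

theorem lin_bpt (ts : List (V × List V)) (d : Q × List (List Bool)) (r : ℕ) (i : ℕ) :
    Lin (fun p : BI V Q × BG Q => bpt ts d r p i) := by
  cases i with
  | zero => exact Lin.fst.comp (Lin.snd.comp (Lin.snd.comp Lin.fst))
  | succ i =>
    by_cases h : i + 1 = r
    · simp only [bpt, h, if_true]
      exact Lin.snd.comp (Lin.snd.comp (Lin.snd.comp Lin.fst))
    · simp only [bpt, h, if_false]
      have h1 : Lin (fun p : BI V Q × BG Q => (p.2.2.drop i).headD d) :=
        (lin_drop (Lin.snd.comp Lin.snd) i).headD d
      exact (Lin.fst.comp h1).pair ((lin_expandAll ts).comp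
        ((Lin.fst.comp (Lin.fst.comp Lin.fst)).pair (Lin.snd.comp h1)))

theorem lin_bchild (ts : List (V × List V)) (d : Q × List (List Bool)) (r : ℕ) (i : ℕ) :
    Lin (bchild ts d r i : BI V Q × BG Q → BI V Q) :=
  ((Lin.fst.comp (Lin.fst.comp Lin.fst)).pair (Lin.snd.comp (Lin.fst.comp Lin.snd))).pair
    ((Lin.fst.comp (Lin.fst.comp Lin.snd)).pair ((lin_bpt ts d r i).pair
      (lin_bpt ts d r (i + 1))))

theorem lin_bch (ts : List (V × List V)) (d : Q × List (List Bool)) (r : ℕ) (n : ℕ) :
    Lin (bch ts d r n : (BI V Q × BG Q) × List Bool → BI V Q) := by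
  induction n with
  | zero => exact (lin_bchild ts d r 0).comp Lin.fst
  | succ n ih =>
    exact ((Lin.eq Lin.snd (Lin.const (un n))).ite ((lin_bchild ts d r n).comp Lin.fst) ih)

theorem lin_bbase : Lin (bbase : BI V Q → Bool) :=
  (Lin.fst.comp Lin.snd).or (Lin.isEmpty (Lin.snd.comp Lin.fst))

theorem lin_bval {st : List Bool × (Cf V Q × Cf V Q) → Bool} (hst : Lin st) :
    Lin (bval st : BI V Q → Bool) := by
  classical
  have h1 : Lin (fun x : BI V Q => x.2.2.1) := Lin.fst.comp (Lin.snd.comp Lin.snd)
  have h2 : Lin (fun x : BI V Q => x.2.2.2) := Lin.snd.comp (Lin.snd.comp Lin.snd)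
  refine (((Lin.eq (Lin.fst.comp h1) (Lin.fst.comp h2)).and
    (lin_perm (Lin.snd.comp h1) (Lin.snd.comp h2))).or
    (hst.comp ((Lin.fst.comp Lin.fst).pair (Lin.snd.comp Lin.snd)))).of_eq fun x => ?_
  unfold bval
  congr

end Lin

/-- Configurations as multisets. -/
abbrev mc (c : Cf V Q) : Q × Multiset (V × List V) := (c.1, (c.2 : Multiset (V × List V)))

theorem bval_iff {st : List Bool × (Cf V Q × Cf V Q) → Bool} {x : BI V Q} :
    bval st x = true ↔ mc x.2.2.1 = mc x.2.2.2 ∨ st (x.1.1, x.2.2) = true := by
  unfold bval mc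
  simp only [Bool.or_eq_true, Bool.and_eq_true, decide_eq_true_eq, Prod.mk.injEq,
    Multiset.coe_eq_coe]

section Sound

variable [Enc V] [Enc Q] [Rd Q] {S : Sys V Q M} {st : List Bool × (Cf V Q × Cf V Q) → Bool}
  {ts : List (V × List V)} {d : Q × List (List Bool)} {r C B : ℕ}

theorem base_sound (hst : ∀ x, st x = true → Stp S x.1.length (mc x.2.1) (mc x.2.2))
    (hr : 0 < r) {x : BI V Q}
    (h : RecN.Rec C r bbase (bval st) (fun x => x.1.2) (fun _ => true) (bch ts d r r) B x) :
    Run S x.1.1.length (mc x.2.2.1) (mc x.2.2.2) := by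
  induction h with
  | @base x _ h2 =>
    rcases bval_iff.1 h2 with h | h
    · rw [h]
    · exact Relation.ReflTransGen.single (hst _ h)
  | @node x j _ _ _ _ _ ih =>
    set p : BI V Q × BG Q := (x, gu (BG Q) (bits (C * x.1.2.length + C + 1) j)) with hp
    have h1 : ∀ i, i < r → Run S x.1.1.length (mc (bpt ts d r p i)) (mc (bpt ts d r p (i + 1))) := by
      intro i hi
      have := ih i hi
      rw [bch_eq ts d r r i hi] at this
      exact this
    have h2 : ∀ i, i ≤ r → Run S x.1.1.length (mc (bpt ts d r p 0)) (mc (bpt ts d r p i)) := by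
      intro i
      induction i with
      | zero => intro _; exact Relation.ReflTransGen.refl
      | succ i ih2 => intro hi; exact (ih2 (by omega)).trans (h1 i (by omega))
    have h3 := h2 r (le_refl _)
    obtain ⟨r', rfl⟩ : ∃ r', r = r' + 1 := ⟨r - 1, by omega⟩
    have h4 : bpt ts d (r' + 1) p (r' + 1) = x.2.2.2 := by
      rw [bpt, if_pos rfl]
    rw [h4] at h3
    exact h3

end Sound

theorem gr_mono {k k' : ℕ} (h : k ≤ k') : gr k ≤ gr k' := by
  induction k', h using Nat.le_induction with
  | base => exact le_refl _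
  | succ n _ ih => have := gr_step n; omega

section Complete

variable [Enc V] [Enc Q] [Rd Q] {S : Sys V Q M} {st : List Bool × (Cf V Q × Cf V Q) → Bool}
  {ts : List (V × List V)} {d : Q × List (List Bool)} {r B K₀ : ℕ}

theorem base_complete (hst : ∀ x, (∀ i ∈ x.2.1.2, i.2.length ≤ K₀) →
      Stp S x.1.length (mc x.2.1) (mc x.2.2) → st x = true)
    (hts : ts.Nodup) (hts' : ∀ i : V × List V, i.2.length ≤ K₀ → i ∈ ts)
    {D DQ C : ℕ} (hD : ∀ i : V × List V, i.2.length ≤ K₀ → sz i ≤ D) (hDQ : ∀ q : Q, sz q ≤ DQ)
    (hC : r * (DQ + ts.length * 10 + 10) + 20 ≤ C)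
    (hr : 0 < r) (cap : List Bool) (F0 : ℕ)
    (hB : sz cap + 4 * F0 + 2 * DQ + 2 * (D + 1) * cap.length + 20 ≤ B) :
    ∀ (k : ℕ) (x : BI V Q), x.1.1 = cap → (∀ i ∈ x.2.2.1.2, i.2.length ≤ K₀) →
      x.2.2.1.2.length ≤ cap.length →
      Within (Stp S cap.length) (r ^ k) (mc x.2.2.1) (mc x.2.2.2) →
      (Nat.size cap.length + 2) * gr k ≤ x.1.2.length → x.1.2.length ≤ F0 →
      x.2.1 = decide (k = 0) →
      RecN.Rec C r bbase (bval st) (fun x => x.1.2) (fun _ => true) (bch ts d r r) B x := by
  intro k
  induction k with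
  | zero =>
    intro x hcap hsm hlen hw hfu hF hfl
    refine RecN.Rec.base ?_ ?_
    · rw [bbase, hfl]; rfl
    · rw [bval_iff]
      rw [pow_zero] at hw
      rcases hw with hw | ⟨c, h1, h2⟩
      · exact Or.inl hw
      · right
        have h3 : c = mc x.2.2.2 := h2
        rw [h3] at h1
        rw [hcap]
        exact hst (cap, x.2.2) hsm h1
  | succ k ih =>
    intro x hcap hsm hlen hw hfu hF hfl
    have hfl' : x.2.1 = false := by rw [hfl]; simp
    have hgp := gr_pos (k + 1)
    have hgp' := gr_pos k
    have hgs := gr_step k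
    have hb : bbase x = false := by
      rw [bbase, hfl', Bool.false_or]
      have : 0 < x.1.2.length := by
        have : (Nat.size cap.length + 2) * gr (k + 1) > 0 := by positivity
        omega
      cases hx : x.1.2 with
      | nil => rw [hx] at this; simp at this
      | cons a l => rfl
    rw [pow_succ, mul_comm] at hw
    obtain ⟨c, hc0, hcr, hc⟩ := hw.split
    have hreach : ∀ i, i ≤ r → Run S cap.length (mc x.2.2.1) (c i) := by
      intro i
      induction i with
      | zero => intro _; rw [hc0]
      | succ i ih2 => intro hi; exact (ih2 (by omega)).trans (hc i (by omega)).refl_trans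
    have hcs : ∀ i, i ≤ r → ∀ e ∈ (c i).2, e.2.length ≤ K₀ := fun i hi =>
      small_inv (hreach i hi) fun e he => hsm e (by simpa using he)
    have hcc : ∀ i, i ≤ r → (c i).2.card ≤ cap.length := fun i hi =>
      (hreach i hi).card_le (by simpa using hlen)
    -- the configurations in between
    have hex : ∀ i, ∃ cs : List (List Bool), i ≤ r → (cs.length = ts.length ∧
        (∀ b ∈ cs, b.length ≤ Nat.size cap.length) ∧
        ((expandAll ts cap cs : List (V × List V)) : Multiset (V × List V)) = (c i).2) := by
      intro i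
      by_cases hi : i ≤ r
      · obtain ⟨cs, h1, h2, h3⟩ := exists_expandAll ts hts cap (c i).2.toList
          (fun t ht => hts' t (hcs i hi t (by simpa using ht)))
          (by rw [Multiset.length_toList]; exact hcc i hi)
        refine ⟨cs, fun _ => ⟨h1, h2, ?_⟩⟩
        rw [← Multiset.coe_toList (c i).2, Multiset.coe_eq_coe]
        exact h3
      · exact ⟨[], fun h => absurd h hi⟩
    choose cs hcs1 using hex
    set mids : List (Q × List (List Bool)) :=
      (List.range (r - 1)).map fun i => ((c (i + 1)).1, cs (i + 1)) with hmids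
    set f' : List Bool := List.replicate ((Nat.size cap.length + 2) * gr k) true with hf'
    set y : BG Q := ((decide (k = 0), f'), mids) with hy
    have hf'l : f'.length = (Nat.size cap.length + 2) * gr k := List.length_replicate ..
    have hpt : ∀ i, i ≤ r → mc (bpt ts d r (x, y) i) = c i := by
      intro i hi
      cases i with
      | zero => rw [bpt, hc0]
      | succ i =>
        rw [bpt]
        by_cases h : i + 1 = r
        · rw [if_pos h, h, hcr]
        · rw [if_neg h]
          have h1 : (mids.drop i).headD d = ((c (i + 1)).1, cs (i + 1)) := by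
            have hlt : i < mids.length := by
              rw [hmids, List.length_map, List.length_range]; omega
            rw [List.drop_eq_getElem_cons hlt, List.headD_cons]
            simp [hmids]
          show mc (((mids.drop i).headD d).1, expandAll ts x.1.1 ((mids.drop i).headD d).2) = _
          rw [h1, hcap]
          exact Prod.ext rfl (hcs1 (i + 1) hi).2.2
    have hf'F : f'.length ≤ F0 := by
      rw [hf'l]
      have : (Nat.size cap.length + 2) * gr k ≤ (Nat.size cap.length + 2) * gr (k + 1) :=
        Nat.mul_le_mul_left _ (gr_mono (Nat.le_succ k))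
      omega
    have hch : ∀ i, i < r → bch ts d r r ((x, y), un i) = bchild ts d r i (x, y) :=
      fun i hi => bch_eq ts d r r i hi _
    have hptsz : ∀ i, i ≤ r → sz (bpt ts d r (x, y) i) ≤ DQ + (D + 1) * cap.length + 2 := by
      intro i hi
      have h1 := hpt i hi
      have h2 : ∀ e ∈ (bpt ts d r (x, y) i).2, sz e ≤ D := by
        intro e he
        refine hD e (hcs i hi e ?_)
        rw [← h1]
        simpa using he
      have h3 := sz_list_le' (bpt ts d r (x, y) i).2 h2
      have h4 : (bpt ts d r (x, y) i).2.length ≤ cap.length := by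
        have := hcc i hi
        rw [← h1] at this
        simpa using this
      have h5 := hDQ (bpt ts d r (x, y) i).1
      have h6 : sz (bpt ts d r (x, y) i) = sz (bpt ts d r (x, y) i).1 +
        sz (bpt ts d r (x, y) i).2 + 1 := sz_pair _ _
      have h7 : (D + 1) * (bpt ts d r (x, y) i).2.length ≤ (D + 1) * cap.length :=
        Nat.mul_le_mul_left _ h4
      omega
    refine RecN.Rec.guess (y := y) hb ?_ ⟨rfl, fun i hi => ?_⟩ fun i hi => ?_
    · -- the size of the guess
      have e1 : sz y = (sz (decide (k = 0)) + sz f' + 1) + sz mids + 1 := by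
        rw [hy, sz_pair, sz_pair]
      have e2 := sz_bool (decide (k = 0))
      have e3 := sz_word_bool f'
      have e4 : sz mids ≤ (DQ + ts.length * (4 * Nat.size cap.length + 2) + 3 + 1) *
          mids.length + 1 := by
        refine sz_list_le' _ fun e he => ?_
        rw [hmids, List.mem_map] at he
        obtain ⟨i, hi, rfl⟩ := he
        rw [List.mem_range] at hi
        obtain ⟨g1, g2, g3⟩ := hcs1 (i + 1) (by omega)
        rw [sz_pair]
        have g4 := hDQ (c (i + 1)).1
        have g5 : sz (cs (i + 1)) ≤ (4 * Nat.size cap.length + 1 + 1) * (cs (i + 1)).length + 1 :=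
          sz_list_le' _ fun b hb => (sz_word_bool b).trans (by have := g2 b hb; omega)
        rw [g1] at g5
        have e : (4 * Nat.size cap.length + 1 + 1) * ts.length =
          ts.length * (4 * Nat.size cap.length + 2) := by ring
        omega
      have e5 : mids.length ≤ r := by
        rw [hmids, List.length_map, List.length_range]; omega
      set s := Nat.size cap.length with hs
      have e6 : (DQ + ts.length * (4 * s + 2) + 3 + 1) * mids.length ≤
          (DQ + ts.length * (4 * s + 2) + 3 + 1) * r := Nat.mul_le_mul_left _ e5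
      have e7 : (DQ + ts.length * (4 * s + 2) + 3 + 1) * r ≤
          (r * (DQ + ts.length * 10 + 10)) * (s + 2) := by
        have : DQ + ts.length * (4 * s + 2) + 3 + 1 ≤ (DQ + ts.length * 10 + 10) * (s + 2) := by
          nlinarith [Nat.zero_le (DQ * s), Nat.zero_le (ts.length * s)]
        calc _ ≤ ((DQ + ts.length * 10 + 10) * (s + 2)) * r := Nat.mul_le_mul_right _ this
          _ = _ := by ring
      have e8 : (s + 2) ≤ x.1.2.length := by
        have : (s + 2) * 1 ≤ (s + 2) * gr (k + 1) := Nat.mul_le_mul_left _ (by omega)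
        omega
      have e9 : r * (DQ + ts.length * 10 + 10) * (s + 2) ≤
          (C - 20) * x.1.2.length := Nat.mul_le_mul (by omega) e8
      have e10 : f'.length ≤ x.1.2.length := by
        rw [hf'l]
        have : (s + 2) * gr k ≤ (s + 2) * gr (k + 1) :=
          Nat.mul_le_mul_left _ (gr_mono (Nat.le_succ k))
        omega
      have e11 : (C - 20) * x.1.2.length + 20 * x.1.2.length = C * x.1.2.length := by
        rw [← Nat.add_mul]; congr 1; omega
      show sz y ≤ C * x.1.2.length + C
      omega
    · rw [hch i hi]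
      refine ⟨?_, ?_⟩
      · have e1 : sz (bchild ts d r i (x, y)) = (sz x.1.1 + sz f' + 1) +
            (sz (decide (k = 0)) + (sz (bpt ts d r (x, y) i) + sz (bpt ts d r (x, y) (i + 1)) + 1)
              + 1) + 1 := by
          rw [bchild, sz_pair, sz_pair, sz_pair, sz_pair]
        have e2 := sz_bool (decide (k = 0))
        have e3 := sz_word_bool f'
        have e4 := hptsz i (by omega)
        have e5 := hptsz (i + 1) (by omega)
        rw [hcap] at e1
        have e6 : 2 * (D + 1) * cap.length = (D + 1) * cap.length + (D + 1) * cap.length := by ring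
        omega
      · show 10 * f'.length ≤ 9 * x.1.2.length
        rw [hf'l]
        have : (Nat.size cap.length + 2) * (10 * gr k) ≤
          (Nat.size cap.length + 2) * (9 * gr (k + 1)) := Nat.mul_le_mul_left _ hgs
        have e1 : (Nat.size cap.length + 2) * (10 * gr k) =
          10 * ((Nat.size cap.length + 2) * gr k) := by ring
        have e2 : (Nat.size cap.length + 2) * (9 * gr (k + 1)) =
          9 * ((Nat.size cap.length + 2) * gr (k + 1)) := by ring
        omega
    · rw [hch i hi]
      refine ih _ hcap ?_ ?_ ?_ ?_ ?_ rfl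
      · intro e he
        refine hcs i (by omega) e ?_
        rw [← hpt i (by omega)]
        exact Multiset.mem_coe.2 he
      · have h1 := hcc i (by omega)
        rw [← hpt i (by omega)] at h1
        exact h1
      · show Within _ _ (mc (bpt ts d r (x, y) i)) (mc (bpt ts d r (x, y) (i + 1)))
        rw [hpt i (by omega), hpt (i + 1) (by omega)]
        exact hc i hi
      · exact hf'l.ge
      · exact hf'F

end Complete

theorem finite_small (V : Type) [Finite V] (K₀ : ℕ) :
    {i : V × List V | i.2.length ≤ K₀}.Finite := by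
  have h : {i : V × List V | i.2.length ≤ K₀} = Set.univ ×ˢ {u : List V | u.length ≤ K₀} := by
    ext i; simp
  rw [h]
  exact Set.finite_univ.prod (List.finite_length_le V K₀)

/-- The first instance. -/
def bx0 (C : ℕ) (p : List Bool × ((Cf V Q) × (Cf V Q))) : BI V Q :=
  ((p.1, rep C (true :: p.1)), (false, p.2))

theorem exists_bdec [Finite V] [Finite Q] [Finite M] [Enc V] [Enc Q] [Rd V] [Rd Q]
    (S : Sys V Q M) (hc : ∀ m, ∃ d : List V → Bool, Lin d ∧
      ∀ u : List V, d u = true ↔ (u : Multiset V) ∈ S.cond m) (K₀ : ℕ) :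
    ∃ bd : List Bool × ((Q × List (V × List V)) × (Q × List (V × List V))) → Bool, Lin bd ∧
      (∀ x, bd x = true →
        Run S x.1.length (x.2.1.1, (x.2.1.2 : Multiset (V × List V)))
          (x.2.2.1, (x.2.2.2 : Multiset (V × List V)))) ∧
      (∀ x, (∀ i ∈ x.2.1.2, i.2.length ≤ K₀) → x.2.1.2.length ≤ x.1.length →
        Run S x.1.length (x.2.1.1, (x.2.1.2 : Multiset (V × List V)))
          (x.2.2.1, (x.2.2.2 : Multiset (V × List V))) → bd x = true) := by
  classical
  obtain ⟨st, hst, hst1, hst2⟩ := exists_step S hc K₀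
  obtain ⟨E, hE⟩ := small_path S K₀
  obtain ⟨G, hG⟩ := gr_fuel
  set r := 2 ^ E with hr
  have hr0 : 0 < r := by positivity
  have hfin := finite_small V K₀
  set ts := hfin.toFinset.toList with hts
  have hts1 : ts.Nodup := Finset.nodup_toList _
  have hts2 : ∀ i : V × List V, i.2.length ≤ K₀ → i ∈ ts := fun i hi => by
    rw [hts, Finset.mem_toList, Set.Finite.mem_toFinset]; exact hi
  obtain ⟨D, hD⟩ : ∃ D, ∀ i : V × List V, i.2.length ≤ K₀ → sz i ≤ D := by
    obtain ⟨D, hD⟩ := (hfin.image fun i => sz i).bddAbove
    exact ⟨D, fun i hi => hD ⟨i, hi, rfl⟩⟩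
  obtain ⟨DQ, hDQ⟩ := exists_sz_le' Q
  set d : Q × List (List Bool) := (Rd.rd Dat.nil, []) with hd
  set C := r * (DQ + ts.length * 10 + 10) + 20 with hC
  set K := 4 * G + 2 * DQ + 2 * (D + 1) + 30 with hK
  set bd : List Bool × ((Q × List (V × List V)) × (Q × List (V × List V))) → Bool := fun p =>
    decide (RecN.Rec C r bbase (bval st) (fun x => x.1.2) (fun _ => true) (bch ts d r r)
      (K * sz (bx0 G p) + K) (bx0 G p)) with hbd
  refine ⟨bd, ?_, ?_, ?_⟩
  · refine RecN.lin_rec (C := C) (K := K) (r := r) lin_bbase (lin_bval hst)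
      (Lin.snd.comp Lin.fst) (Lin.const _) (lin_bch ts d r r) (fun x hx => ?_)
      (x0 := bx0 G) ((Lin.fst.pair (((Lin.const true).cons Lin.fst).rep G)).pair
        ((Lin.const false).pair Lin.snd)) fun w => by rw [decide_eq_true_eq]
    rw [bbase, Bool.or_eq_false_iff] at hx
    cases h : x.1.2 with
    | nil => rw [h] at hx; simp at hx
    | cons a l => simp
  · intro x hx
    rw [hbd, decide_eq_true_eq] at hx
    exact base_sound (S := S) hst1 hr0 hx
  · intro x h1 h2 h3
    rw [hbd, decide_eq_true_eq]
    have hlen : (rep G (true :: x.1)).length = G * x.1.length + G := by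
      rw [rep_length, List.length_cons, Nat.mul_add, Nat.mul_one]
    refine base_complete (S := S) (K₀ := K₀) (D := D) (DQ := DQ) hst2 hts1 hts2 hD hDQ
      (le_of_eq hC.symm) hr0 x.1
      (G * x.1.length + G) ?_ (Nat.size x.1.length + 1) _ rfl h1 h2 (hE _ _ _ h1 h2 h3) ?_
      (le_of_eq hlen) (by simp [bx0])
    · have e1 : sz (bx0 G x) = (sz x.1 + sz (rep G (true :: x.1)) + 1) +
          (sz false + sz x.2 + 1) + 1 := by rw [bx0, sz_pair, sz_pair, sz_pair]
      have e2 := length_le_sz (rep G (true :: x.1))
      have e3 := length_le_sz x.1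
      rw [hlen] at e2
      have e4 : K * sz (bx0 G x) = 4 * G * sz (bx0 G x) + 2 * DQ * sz (bx0 G x) +
        2 * (D + 1) * sz (bx0 G x) + 30 * sz (bx0 G x) := by rw [hK]; ring
      have e5 : 2 * (D + 1) * x.1.length ≤ 2 * (D + 1) * sz (bx0 G x) :=
        Nat.mul_le_mul_left _ (by omega)
      omega
    · show _ ≤ (rep G (true :: x.1)).length
      rw [hlen]
      refine le_trans ?_ (hG x.1.length)
      exact Nat.mul_le_mul_left _ (gr_mono (by omega))

end Pool.Agent.Lib.LinSpace.Reg
end

section

/-!
The main recursion: splitting a run in time, obligations with short targets are only counted.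
-/

set_option autoImplicit false
set_option linter.unusedSimpArgs false

namespace Pool.Agent.Lib.LinSpace.Reg

open RecN

/-- Instances: bound for the number of obligations, fuel, two states, the obligations, the
further letters left over at the end. -/
abbrev MI (V Q : Type) := (List Bool × List Bool) × ((Q × Q) × (List (V × List V) × List V))

/-- Guesses: state and fuel, the decomposition of the large obligations, the numbers of the
decompositions of the small obligations, the numbers of the further letters. -/
abbrev MG (V Q : Type) := (Q × List Bool) ×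
  (List (V × List (V × List V)) × (List (List Bool) × List (List Bool)))

variable {V Q M : Type}

/-- The configuration at the end. -/
def finL (X : List (V × List V)) (T : List V) : List (V × List V) :=
  (X.flatMap Prod.snd).map (fun a => (a, [a])) ++ T.map (fun a => (a, []))

theorem tl_coe {α : Type} (X : List (V × List α)) :
    tl (X : Multiset (V × List α)) = ((X.flatMap Prod.snd : List α) : Multiset α) := by
  unfold tl
  induction X with
  | nil => rfl
  | cons i X ih =>
    rw [← Multiset.cons_coe, Multiset.cons_bind, ih, List.flatMap_cons, ← Multiset.coe_add]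

theorem finL_coe (X : List (V × List V)) (T : List V) :
    ((finL X T : List (V × List V)) : Multiset (V × List V)) =
      fin (tl (X : Multiset (V × List V))) (T : Multiset V) := by
  rw [tl_coe, finL, fin, ← Multiset.coe_add, Multiset.map_coe, Multiset.map_coe]

/-- The guessed decomposition. -/
def mD (tsD : List (V × List (V × List V))) (p : MI V Q × MG V Q) :
    List (V × List (V × List V)) := p.2.2.1 ++ expandAll tsD p.1.1.1 p.2.2.2.1

/-- The guessed further letters. -/
def mT (tsV : List V) (p : MI V Q × MG V Q) : List V := expandAll tsV p.1.1.1 p.2.2.2.2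

/-- All targets are small. -/
def msmall (K₀ : ℕ) (x : MI V Q) : Bool :=
  x.2.2.1.all fun i => decide (i.2.length ≤ (List.replicate K₀ true).length)

/-- End of the recursion. -/
def mbase (K₀ : ℕ) (x : MI V Q) : Bool := msmall K₀ x || x.1.2.isEmpty

/-- The value at the end of the recursion. -/
def mval (K₀ : ℕ) (bd : List Bool × (Cf V Q × Cf V Q) → Bool) (x : MI V Q) : Bool :=
  msmall K₀ x && bd (x.1.1, ((x.2.1.1, x.2.2.1), (x.2.1.2, finL x.2.2.1 x.2.2.2)))

/-- The test of the guess. -/
noncomputable def mchk (tsD : List (V × List (V × List V))) (p : MI V Q × MG V Q) : Bool := by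
  classical
  exact decide ((p.1.2.2.1).Perm ((mD tsD p).map (tm fun u => u.flatMap Prod.snd)))

/-- The subinstances. -/
def mch (tsD : List (V × List (V × List V))) (tsV : List V)
    (p : (MI V Q × MG V Q) × List Bool) : MI V Q :=
  if p.2.isEmpty then
    ((p.1.1.1.1, p.1.2.1.2), ((p.1.1.2.1.1, p.1.2.1.1),
      ((mD tsD p.1).map (tm (List.map Prod.fst)), mT tsV p.1)))
  else
    ((p.1.1.1.1, p.1.2.1.2), ((p.1.2.1.1, p.1.1.2.1.2),
      ((mD tsD p.1).flatMap Prod.snd ++ (mT tsV p.1).map (fun a => (a, [])), p.1.1.2.2.2)))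

/-- What an instance says. -/
def mJ (S : Sys V Q M) (x : MI V Q) : Prop :=
  J S x.1.1.length x.2.1.1 (x.2.2.1 : Multiset (V × List V)) (x.2.2.2 : Multiset V) x.2.1.2

section Lin

variable [Enc V] [Enc Q]

theorem lin_mD (tsD : List (V × List (V × List V))) :
    Lin (mD tsD : MI V Q × MG V Q → List (V × List (V × List V))) :=
  (Lin.fst.comp (Lin.snd.comp Lin.snd)).append ((lin_expandAll tsD).comp
    ((Lin.fst.comp (Lin.fst.comp Lin.fst)).pair
      (Lin.fst.comp (Lin.snd.comp (Lin.snd.comp Lin.snd)))))

theorem lin_mT (tsV : List V) : Lin (mT tsV : MI V Q × MG V Q → List V) :=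
  (lin_expandAll tsV).comp ((Lin.fst.comp (Lin.fst.comp Lin.fst)).pair
    (Lin.snd.comp (Lin.snd.comp (Lin.snd.comp Lin.snd))))

theorem lin_msmall (K₀ : ℕ) : Lin (msmall K₀ : MI V Q → Bool) :=
  Lin.all' (Lin.fst.comp (Lin.snd.comp Lin.snd)) (Lin.lenLe Lin.snd (Lin.const _))

theorem lin_mbase (K₀ : ℕ) : Lin (mbase K₀ : MI V Q → Bool) :=
  (lin_msmall K₀).or (Lin.isEmpty (Lin.snd.comp Lin.fst))

theorem lin_finL {α : Type} [Enc α] {X : α → List (V × List V)} {T : α → List V} (hX : Lin X)
    (hT : Lin T) : Lin (fun x => finL (X x) (T x)) :=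
  (Lin.map' (Lin.flatMap hX Lin.snd) (Lin.id.pair (Lin.id.cons (Lin.const [])))).append
    (Lin.map' hT (Lin.id.pair (Lin.const [])))

theorem lin_mval (K₀ : ℕ) {bd : List Bool × (Cf V Q × Cf V Q) → Bool} (hbd : Lin bd) :
    Lin (mval K₀ bd : MI V Q → Bool) := by
  have h1 : Lin (fun x : MI V Q => x.2.1) := Lin.fst.comp Lin.snd
  have h2 : Lin (fun x : MI V Q => x.2.2) := Lin.snd.comp Lin.snd
  exact (lin_msmall K₀).and (hbd.comp ((Lin.fst.comp Lin.fst).pair
    (((Lin.fst.comp h1).pair (Lin.fst.comp h2)).pair ((Lin.snd.comp h1).pair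
      (lin_finL (Lin.fst.comp h2) (Lin.snd.comp h2))))))

theorem lin_tm {α β : Type} [Enc α] [Enc β] {f : List α → List β} (hf : Lin f) :
    Lin (tm f : V × List α → V × List β) := Lin.fst.pair (hf.comp Lin.snd)

theorem lin_mchk (tsD : List (V × List (V × List V))) :
    Lin (mchk tsD : MI V Q × MG V Q → Bool) := by
  classical
  refine (lin_perm (Lin.fst.comp (Lin.snd.comp (Lin.snd.comp Lin.fst)))
    (Lin.map' (lin_mD tsD) (lin_tm (f := fun u : List (V × List V) => u.flatMap Prod.snd)
      (Lin.flatMap Lin.id Lin.snd)))).of_eq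
    fun x => ?_
  unfold mchk
  congr

theorem lin_mch (tsD : List (V × List (V × List V))) (tsV : List V) :
    Lin (mch tsD tsV : (MI V Q × MG V Q) × List Bool → MI V Q) := by
  have hc : Lin (fun p : (MI V Q × MG V Q) × List Bool => (p.1.1.1.1, p.1.2.1.2)) :=
    (Lin.fst.comp (Lin.fst.comp (Lin.fst.comp Lin.fst))).pair
      (Lin.snd.comp (Lin.fst.comp (Lin.snd.comp Lin.fst)))
  have hq : Lin (fun p : (MI V Q × MG V Q) × List Bool => p.1.1.2.1) :=
    Lin.fst.comp (Lin.snd.comp (Lin.fst.comp Lin.fst))
  have hp : Lin (fun p : (MI V Q × MG V Q) × List Bool => p.1.2.1.1) :=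
    Lin.fst.comp (Lin.fst.comp (Lin.snd.comp Lin.fst))
  have hT : Lin (fun p : (MI V Q × MG V Q) × List Bool => p.1.1.2.2.2) :=
    Lin.snd.comp (Lin.snd.comp (Lin.snd.comp (Lin.fst.comp Lin.fst)))
  exact (Lin.isEmpty Lin.snd).ite
    (hc.pair (((Lin.fst.comp hq).pair hp).pair
      ((Lin.map' ((lin_mD tsD).comp Lin.fst) (lin_tm (Lin.map' Lin.id Lin.fst))).pair
        ((lin_mT tsV).comp Lin.fst))))
    (hc.pair ((hp.pair (Lin.snd.comp hq)).pair
      (((Lin.flatMap ((lin_mD tsD).comp Lin.fst) Lin.snd).append
        (Lin.map' ((lin_mT tsV).comp Lin.fst) (Lin.id.pair (Lin.const [])))).pair hT)))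

end Lin

theorem msmall_iff {K₀ : ℕ} {x : MI V Q} :
    msmall K₀ x = true ↔ ∀ i ∈ x.2.2.1, i.2.length ≤ K₀ := by
  simp [msmall, List.all_eq_true]

theorem mchk_iff {tsD : List (V × List (V × List V))} {p : MI V Q × MG V Q} :
    mchk tsD p = true ↔
      (p.1.2.2.1).Perm ((mD tsD p).map (tm fun u => u.flatMap Prod.snd)) := by
  classical
  unfold mchk
  rw [decide_eq_true_eq]

section Sound

variable [Enc V] [Enc Q] [Rd V] [Rd Q] {S : Sys V Q M}
  {bd : List Bool × (Cf V Q × Cf V Q) → Bool}
  {tsD : List (V × List (V × List V))} {tsV : List V} {K₀ C B : ℕ}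

theorem main_sound (hbd : ∀ x, bd x = true → Run S x.1.length (mc x.2.1) (mc x.2.2))
    {x : MI V Q}
    (h : RecN.Rec C 2 (mbase K₀) (mval K₀ bd) (fun x => x.1.2) (mchk tsD) (mch tsD tsV) B x) :
    mJ S x := by
  induction h with
  | @base x _ h2 =>
    rw [mval, Bool.and_eq_true] at h2
    have := hbd _ h2.2
    unfold mJ J
    rw [← finL_coe]
    exact this
  | @node x j _ _ _ h4 _ ih =>
    set p : MI V Q × MG V Q := (x, gu (MG V Q) (bits (C * x.1.2.length + C + 1) j)) with hp
    have h1 : (p.1.2.2.1 : Multiset (V × List V)) =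
        ((mD tsD p : List (V × List (V × List V))) : Multiset (V × List (V × List V))).map
          (tm fun u => u.flatMap Prod.snd) := by
      have := h4.1
      change mchk tsD p = true at this
      rw [Multiset.map_coe, Multiset.coe_eq_coe]
      exact mchk_iff.1 this
    have h2 : mJ S (mch tsD tsV (p, [])) := ih 0 (by omega)
    have h3 : mJ S (mch tsD tsV (p, [true])) := ih 1 (by omega)
    unfold mJ at h2 h3 ⊢
    rw [h1]
    refine J.compose (p := p.2.1.1) (T' := ((mT tsV p : List V) : Multiset V)) ?_ ?_
    · rw [Multiset.map_coe]; exact h2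
    · rw [tl_coe, Multiset.map_coe, Multiset.coe_add]
      exact h3

end Sound

end Pool.Agent.Lib.LinSpace.Reg
end

section

/-!
Completeness of the main recursion.
-/

set_option autoImplicit false
set_option linter.unusedSimpArgs false

namespace Pool.Agent.Lib.LinSpace.Reg

open RecN

variable {V Q M : Type}

/-! ### Sizes -/

section Sizes

variable [Enc V] {DV : ℕ}

theorem sz_word_le (hDV : ∀ a : V, sz a ≤ DV) (u : List V) : sz u ≤ (DV + 1) * u.length + 1 :=
  sz_list_le' u fun a _ => hDV a

theorem sz_items_le (hDV : ∀ a : V, sz a ≤ DV) (X : List (V × List V)) :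
    sz X ≤ (DV + 3) * X.length + (DV + 1) * (X.flatMap Prod.snd).length + 1 := by
  induction X with
  | nil => simp [sz_nil]
  | cons i X ih =>
    rw [sz_cons, List.length_cons, List.flatMap_cons, List.length_append, Nat.mul_add,
      Nat.mul_add]
    have h1 : sz i = sz i.1 + sz i.2 + 1 := sz_pair i.1 i.2
    have h2 := hDV i.1
    have h3 := sz_word_le hDV i.2
    omega

theorem sz_entries_le (hDV : ∀ a : V, sz a ≤ DV) (l : List (V × List V))
    (h : ∀ e ∈ l, e.2 ≠ []) : sz l ≤ (2 * DV + 4) * (l.flatMap Prod.snd).length + 1 := by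
  have h1 := sz_items_le hDV l
  have h2 := length_le_flatMap l h
  have h3 : (DV + 3) * l.length ≤ (DV + 3) * (l.flatMap Prod.snd).length :=
    Nat.mul_le_mul_left _ h2
  have h4 : (2 * DV + 4) * (l.flatMap Prod.snd).length =
    (DV + 3) * (l.flatMap Prod.snd).length + (DV + 1) * (l.flatMap Prod.snd).length := by ring
  omega

theorem sz_dec_le (hDV : ∀ a : V, sz a ≤ DV) (DL : List (V × List (V × List V)))
    (h : ∀ i ∈ DL, ∀ e ∈ i.2, e.2 ≠ []) (h' : ∀ i ∈ DL, 0 < (i.2.flatMap Prod.snd).length) :
    sz DL ≤ (3 * DV + 7) * (DL.map fun i => (i.2.flatMap Prod.snd).length).sum + 1 := by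
  induction DL with
  | nil => simp [sz_nil]
  | cons i DL ih =>
    have h1 := ih (fun i hi => h i (List.mem_cons_of_mem _ hi))
      fun i hi => h' i (List.mem_cons_of_mem _ hi)
    rw [sz_cons, List.map_cons, List.sum_cons, Nat.mul_add]
    have h2 : sz i = sz i.1 + sz i.2 + 1 := sz_pair i.1 i.2
    have h3 := hDV i.1
    have h4 := sz_entries_le hDV i.2 (h i (List.mem_cons_self ..))
    have h5 := h' i (List.mem_cons_self ..)
    have h6 : (3 * DV + 7) * (i.2.flatMap Prod.snd).length =
      (2 * DV + 4) * (i.2.flatMap Prod.snd).length + (DV + 3) * (i.2.flatMap Prod.snd).length := by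
      ring
    have h7 : (DV + 3) * 1 ≤ (DV + 3) * (i.2.flatMap Prod.snd).length :=
      Nat.mul_le_mul_left _ h5
    omega

theorem sz_counts_le (n s : ℕ) (cs : List (List Bool)) (h1 : cs.length = n)
    (h2 : ∀ c ∈ cs, c.length ≤ s) : sz cs ≤ n * (4 * s + 2) + 1 := by
  have h3 : sz cs ≤ (4 * s + 1 + 1) * cs.length + 1 :=
    sz_list_le' _ fun b hb => (sz_word_bool b).trans (by have := h2 b hb; omega)
  rw [h1] at h3
  have e : (4 * s + 1 + 1) * n = n * (4 * s + 2) := by ring
  omega

end Sizes

/-! ### The small decompositions -/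

theorem finite_smallD (V : Type) [Finite V] (K₀ : ℕ) :
    {i : V × List (V × List V) | i.2.length ≤ K₀ ∧ ∀ e ∈ i.2, e.2.length ≤ K₀}.Finite := by
  have : Finite {u : List V // u.length ≤ K₀} := (List.finite_length_le V K₀).to_subtype
  have h : {i : V × List (V × List V) | i.2.length ≤ K₀ ∧ ∀ e ∈ i.2, e.2.length ≤ K₀} ⊆
      (fun p : V × List (V × {u : List V // u.length ≤ K₀}) =>
        (p.1, p.2.map fun e => (e.1, e.2.1))) ''
        {p | p.2.length ≤ K₀} := by
    rintro ⟨a, l⟩ ⟨h1, h2⟩
    refine ⟨(a, l.attach.map fun e => (e.1.1, ⟨e.1.2, h2 e.1 e.2⟩)), ?_, ?_⟩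
    · simpa using h1
    · simp only [List.map_map, Prod.mk.injEq, true_and]
      conv_rhs => rw [← List.attach_map_subtype_val l]
      exact List.map_congr_left fun e _ => rfl
  refine (Set.Finite.image _ ?_).subset h
  have h3 : {p : V × List (V × {u : List V // u.length ≤ K₀}) | p.2.length ≤ K₀} =
      Set.univ ×ˢ {u : List (V × {u : List V // u.length ≤ K₀}) | u.length ≤ K₀} := by
    ext i; simp
  rw [h3]
  exact Set.finite_univ.prod (List.finite_length_le _ K₀)

theorem card_tl_le {X : Multiset (V × List V)} {D : Multiset (V × List (V × List V))}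
    (h : X = D.map (tm fun u => u.flatMap Prod.snd)) : tl X = tl (tl D) := by
  subst h
  induction D using Multiset.induction_on with
  | empty => rfl
  | cons i D ih =>
    have h1 : ∀ (β : Type) (i : V × List β) (X : Multiset (V × List β)),
      tl (i ::ₘ X) = (i.2 : Multiset β) + tl X := fun β i X => Multiset.cons_bind ..
    have h2 : ∀ (β : Type) (X Y : Multiset (V × List β)), tl (X + Y) = tl X + tl Y :=
      fun β X Y => Multiset.add_bind ..
    rw [Multiset.map_cons, h1, ih, h1, h2, tl_coe]
    rfl

theorem card_tl_fst {D : Multiset (V × List (V × List V))} :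
    (tl (D.map (tm (List.map Prod.fst)))).card = (tl D).card := by
  induction D using Multiset.induction_on with
  | empty => rfl
  | cons i D ih =>
    have h1 : ∀ (β : Type) (i : V × List β) (X : Multiset (V × List β)),
      tl (i ::ₘ X) = (i.2 : Multiset β) + tl X := fun β i X => Multiset.cons_bind ..
    rw [Multiset.map_cons, h1, h1, Multiset.card_add, Multiset.card_add, ih]
    simp [tm]

theorem tl_add_empty (X : Multiset (V × List V)) (T : Multiset V) :
    tl (X + T.map fun a => (a, [])) = tl X := by
  have h : tl (T.map fun a => ((a, []) : V × List V)) = 0 := by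
    induction T using Multiset.induction_on with
    | empty => rfl
    | cons a T ih =>
      have h1 : ∀ (i : V × List V) (X : Multiset (V × List V)),
        tl (i ::ₘ X) = (i.2 : Multiset V) + tl X := fun i X => Multiset.cons_bind ..
      rw [Multiset.map_cons, h1, ih]
      rfl
  have h2 : tl (X + T.map fun a => (a, [])) = tl X + tl (T.map fun a => ((a, []) : V × List V)) :=
    Multiset.add_bind ..
  rw [h2, h, add_zero]

section Complete

variable [Enc V] [Enc Q] [Rd V] [Rd Q] {S : Sys V Q M}
  {bd : List Bool × (Cf V Q × Cf V Q) → Bool}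
  {tsD : List (V × List (V × List V))} {tsV : List V} {K₀ B : ℕ}

theorem main_complete {ρ : ℕ} (hρ : ∀ m a x, S.rule m = some (a, x) → x.length ≤ ρ)
    (hK : 10 * ρ + 10 ≤ K₀)
    (hbd : ∀ x : List Bool × (Cf V Q × Cf V Q), (∀ i ∈ x.2.1.2, i.2.length ≤ K₀) →
      x.2.1.2.length ≤ x.1.length → Run S x.1.length (mc x.2.1) (mc x.2.2) → bd x = true)
    (hD : tsD.Nodup) (hD' : ∀ i : V × List (V × List V), i.2.length ≤ K₀ →
      (∀ e ∈ i.2, e.2.length ≤ K₀) → i ∈ tsD)
    (hV : tsV.Nodup) (hV' : ∀ a : V, a ∈ tsV)
    {DV DQ C : ℕ} (hDV : ∀ a : V, sz a ≤ DV) (hDQ : ∀ q : Q, sz q ≤ DQ)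
    (hC : 6 * DV + DQ + (tsD.length + tsV.length) * 8 + 30 ≤ C)
    (cap : List Bool) (F0 : ℕ)
    (hB : sz cap + 4 * F0 + 2 * DQ + (3 * DV + 5) * cap.length + 20 ≤ B) :
    ∀ (k : ℕ) (x : MI V Q), x.1.1 = cap → x.2.2.1.length ≤ cap.length →
      (x.2.2.1.flatMap Prod.snd).length ≤ cap.length → x.2.2.2.length ≤ cap.length →
      mu K₀ (x.2.2.1 : Multiset (V × List V)) * 3 ^ k < 5 ^ k →
      mu K₀ (x.2.2.1 : Multiset (V × List V)) + (Nat.size cap.length + 2) * gr k ≤
        x.1.2.length → x.1.2.length ≤ F0 → mJ S x →
      RecN.Rec C 2 (mbase K₀) (mval K₀ bd) (fun x => x.1.2) (mchk tsD) (mch tsD tsV) B x := by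
  intro k
  induction k with
  | zero =>
    intro x hcap hlen htl hT hmu hfu hF hJ
    have hmu0 : mu K₀ (x.2.2.1 : Multiset (V × List V)) = 0 := by simpa using hmu
    have hs : msmall K₀ x = true := by
      rw [msmall_iff]
      intro i hi
      by_contra hc
      have := le_mu_of_mem K₀ (x.2.2.1 : Multiset (V × List V)) (i := i) (by simpa using hi)
        (by omega)
      omega
    refine RecN.Rec.base (by rw [mbase, hs]; rfl) ?_
    rw [mval, hs, Bool.true_and]
    refine hbd _ (msmall_iff.1 hs) (by rw [hcap]; exact hlen) ?_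
    unfold mJ J at hJ
    rw [← finL_coe] at hJ
    exact hJ
  | succ k ih =>
    intro x hcap hlen htl hT hmu hfu hF hJ
    by_cases hs : msmall K₀ x = true
    · refine RecN.Rec.base (by rw [mbase, hs]; rfl) ?_
      rw [mval, hs, Bool.true_and]
      refine hbd _ (msmall_iff.1 hs) (by rw [hcap]; exact hlen) ?_
      unfold mJ J at hJ
      rw [← finL_coe] at hJ
      exact hJ
    · set X : Multiset (V × List V) := (x.2.2.1 : Multiset (V × List V)) with hX
      set μ := mu K₀ X with hμ
      have hμK : K₀ ≤ μ := by
        rw [msmall_iff] at hs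
        push Not at hs
        obtain ⟨i, hi, hi'⟩ := hs
        exact le_mu_of_mem K₀ X (i := i) (by simpa [hX] using hi) hi'
      set s := Nat.size cap.length with hsdef
      have hgp := gr_pos (k + 1)
      have hgp' := gr_pos k
      have hgs := gr_step k
      have hg1 : (s + 2) * 900 ≤ (s + 2) * gr (k + 1) := Nat.mul_le_mul_left _ hgp
      have hb : mbase K₀ x = false := by
        rw [mbase, Bool.or_eq_false_iff]
        refine ⟨by simpa using hs, ?_⟩
        cases hx : x.1.2 with
        | nil => rw [hx] at hfu; simp only [List.length_nil] at hfu; omega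
        | cons a l => rfl
      -- the split
      set nL := (X.filter fun i => K₀ < i.2.length).card with hnL
      set sL := ((X.filter fun i => K₀ < i.2.length).map fun i => i.2.length).sum with hsL
      have hsum : μ + nL = sL := mu_add_card K₀ X
      unfold mJ at hJ
      rw [hcap] at hJ
      have hXc : X.card ≤ cap.length := by rw [hX, Multiset.coe_card]; exact hlen
      obtain ⟨D, T', p, hXD, hne, hJ1, hJ2, hcard, hH1, hH2⟩ :=
        hJ.split hρ hXc K₀ (nL + (μ + 1) / 2) (by omega) (by omega)
      have hml := mu_left K₀ hne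
      have hmr := mu_right K₀ T' hne
      have hcf := card_filter_map (D := D) K₀
      have hsf := sum_filter_map (D := D) K₀
      rw [← hXD] at hcf hsf
      rw [← hnL] at hcf
      rw [← hsL] at hsf
      -- the guess
      set bigp : V × List (V × List V) → Prop := fun i => K₀ < (i.2.flatMap Prod.snd).length
        with hbigp
      have hDsplit : D.filter bigp + D.filter (fun i => ¬ bigp i) = D :=
        Multiset.filter_add_not bigp D
      set DL := (D.filter bigp).toList with hDL
      set DS := (D.filter fun i => ¬ bigp i).toList with hDS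
      have hDLc : (DL : Multiset (V × List (V × List V))) = D.filter bigp :=
        Multiset.coe_toList _
      have hDSc : (DS : Multiset (V × List (V × List V))) = D.filter fun i => ¬ bigp i :=
        Multiset.coe_toList _
      have hDcard : D.card = X.card := by rw [hXD, Multiset.card_map]
      obtain ⟨cD, hcD1, hcD2, hcD3⟩ := exists_expandAll tsD hD cap DS (fun t ht => by
          rw [hDS, Multiset.mem_toList, Multiset.mem_filter] at ht
          have h1 := length_le_flatMap t.2 (hne t ht.1)
          have h2 : (t.2.flatMap Prod.snd).length ≤ K₀ := by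
            have := ht.2
            rw [hbigp] at this
            simp only at this
            omega
          refine hD' t (by omega) fun e he => ?_
          have h3 : e.2.length ≤ (t.2.flatMap Prod.snd).length :=
            (List.sublist_flatten_of_mem (List.mem_map_of_mem he)).length_le.trans
              (le_of_eq (by rw [List.flatMap_def]))
          omega) (by
          rw [hDS, Multiset.length_toList]
          exact (Multiset.card_le_card (Multiset.filter_le _ _)).trans (by omega))
      obtain ⟨cT, hcT1, hcT2, hcT3⟩ := exists_expandAll tsV hV cap T'.toList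
        (fun t _ => hV' t) (by rw [Multiset.length_toList]; omega)
      set f' : List Bool := List.replicate (3 * μ / 5 + (s + 2) * gr k) true with hf'
      have hf'l : f'.length = 3 * μ / 5 + (s + 2) * gr k := List.length_replicate ..
      set y : MG V Q := ((p, f'), (DL, (cD, cT))) with hy
      have hmD : ((mD tsD (x, y) : List (V × List (V × List V))) :
          Multiset (V × List (V × List V))) = D := by
        rw [mD]
        show ((DL ++ expandAll tsD x.1.1 cD : List (V × List (V × List V))) :
          Multiset (V × List (V × List V))) = D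
        rw [hcap, ← Multiset.coe_add, hDLc, Multiset.coe_eq_coe.2 hcD3, hDSc, hDsplit]
      have hmT : ((mT tsV (x, y) : List V) : Multiset V) = T' := by
        rw [mT]
        show ((expandAll tsV x.1.1 cT : List V) : Multiset V) = T'
        rw [hcap, Multiset.coe_eq_coe.2 hcT3, Multiset.coe_toList]
      have hgk : 10 * ((s + 2) * gr k) ≤ 9 * ((s + 2) * gr (k + 1)) := by
        have : (s + 2) * (10 * gr k) ≤ (s + 2) * (9 * gr (k + 1)) := Nat.mul_le_mul_left _ hgs
        have e1 : (s + 2) * (10 * gr k) = 10 * ((s + 2) * gr k) := by ring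
        have e2 : (s + 2) * (9 * gr (k + 1)) = 9 * ((s + 2) * gr (k + 1)) := by ring
        omega
      have hf'F : f'.length ≤ F0 := by omega
      -- the children
      set c0 : MI V Q := mch tsD tsV ((x, y), un 0) with hc0
      set c1 : MI V Q := mch tsD tsV ((x, y), un 1) with hc1
      have e0X : (c0.2.2.1 : Multiset (V × List V)) = D.map (tm (List.map Prod.fst)) := by
        rw [← hmD, Multiset.map_coe]; rfl
      have e0T : (c0.2.2.2 : Multiset V) = T' := hmT
      have e1X : (c1.2.2.1 : Multiset (V × List V)) = tl D + T'.map fun a => (a, []) := by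
        rw [← hmD, ← hmT, tl_coe, Multiset.map_coe, Multiset.coe_add]; rfl
      have e1T : c1.2.2.2 = x.2.2.2 := rfl
      have htlX : (tl X).card ≤ cap.length := by
        rw [hX, tl_coe, Multiset.coe_card]; exact htl
      have htlD : (tl D).card ≤ cap.length := by omega
      have hmu5 : 5 * mu K₀ (D.map (tm (List.map Prod.fst))) ≤ 3 * μ := by omega
      have hmu5' : 5 * mu K₀ (tl D + T'.map fun a => (a, [])) ≤ 3 * μ := by omega
      have hpow : ∀ m, 5 * m ≤ 3 * μ → m * 3 ^ k < 5 ^ k := by
        intro m hm
        have h1 : 5 * m * 3 ^ k ≤ 3 * μ * 3 ^ k := Nat.mul_le_mul_right _ hm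
        have h2 : 3 * μ * 3 ^ k = μ * 3 ^ (k + 1) := by ring
        have h3 : 5 * (m * 3 ^ k) < 5 * 5 ^ k := by
          calc 5 * (m * 3 ^ k) = 5 * m * 3 ^ k := by ring
            _ ≤ μ * 3 ^ (k + 1) := by omega
            _ < 5 ^ (k + 1) := hmu
            _ = 5 * 5 ^ k := by ring
        omega
      have hlen0 : c0.2.2.1.length ≤ cap.length := by
        have : c0.2.2.1.length = (D.map (tm (List.map Prod.fst))).card := by
          rw [← e0X, Multiset.coe_card]
        rw [this, Multiset.card_map]; omega
      have htl0 : (c0.2.2.1.flatMap Prod.snd).length ≤ cap.length := by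
        have : (c0.2.2.1.flatMap Prod.snd).length =
            (tl (D.map (tm (List.map Prod.fst)))).card := by
          rw [← e0X, tl_coe, Multiset.coe_card]
        rw [this, card_tl_fst]; exact htlD
      have hT0 : c0.2.2.2.length ≤ cap.length := by
        have : c0.2.2.2.length = T'.card := by rw [← e0T, Multiset.coe_card]
        rw [this]; omega
      have hlen1 : c1.2.2.1.length ≤ cap.length := by
        have : c1.2.2.1.length = (tl D + T'.map fun a => (a, [])).card := by
          rw [← e1X, Multiset.coe_card]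
        rw [this, Multiset.card_add, Multiset.card_map]; exact hcard
      have htl1 : (c1.2.2.1.flatMap Prod.snd).length ≤ cap.length := by
        have : (c1.2.2.1.flatMap Prod.snd).length =
            (tl (tl D + T'.map fun a => (a, []))).card := by
          rw [← e1X, tl_coe, Multiset.coe_card]
        rw [this, tl_add_empty, ← card_tl_le hXD]; exact htlX
      have hszc : ∀ c : MI V Q, c.1 = (cap, f') → c.2.2.1.length ≤ cap.length →
          (c.2.2.1.flatMap Prod.snd).length ≤ cap.length → c.2.2.2.length ≤ cap.length →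
          sz c ≤ B := by
        intro c g1 g2 g3 g4
        have e1 : sz c = sz c.1 + (sz c.2.1 + (sz c.2.2.1 + sz c.2.2.2 + 1) + 1) + 1 := by
          simp only [← sz_pair]
        have e2 : sz c.1 = sz cap + sz f' + 1 := by rw [g1, sz_pair]
        have e3 := sz_word_bool f'
        have e4 : sz c.2.1 = sz c.2.1.1 + sz c.2.1.2 + 1 := sz_pair _ _
        have e5 := hDQ c.2.1.1
        have e6 := hDQ c.2.1.2
        have e7 := sz_items_le hDV c.2.2.1
        have e8 := sz_word_le hDV c.2.2.2
        have e9 : (DV + 3) * c.2.2.1.length ≤ (DV + 3) * cap.length := Nat.mul_le_mul_left _ g2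
        have e10 : (DV + 1) * (c.2.2.1.flatMap Prod.snd).length ≤ (DV + 1) * cap.length :=
          Nat.mul_le_mul_left _ g3
        have e11 : (DV + 1) * c.2.2.2.length ≤ (DV + 1) * cap.length :=
          Nat.mul_le_mul_left _ g4
        have e12 : (3 * DV + 5) * cap.length = (DV + 3) * cap.length + (DV + 1) * cap.length +
          (DV + 1) * cap.length := by ring
        omega
      have hc0' : c0.1 = (cap, f') := by
        show (x.1.1, f') = (cap, f')
        rw [hcap]
      have hc1' : c1.1 = (cap, f') := by
        show (x.1.1, f') = (cap, f')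
        rw [hcap]
      have hm10 : 10 * f'.length ≤ 9 * x.1.2.length := by omega
      refine RecN.Rec.guess (y := y) hb ?_ ⟨?_, fun i hi => ?_⟩ fun i hi => ?_
      · -- the size of the guess
        have e1 : sz y = (sz p + sz f' + 1) + (sz DL + (sz cD + sz cT + 1) + 1) + 1 := by
          simp only [hy, sz_pair]
        have e2 := hDQ p
        have e3 := sz_word_bool f'
        have e4 := sz_dec_le hDV DL (fun i hi => hne i (by
            rw [hDL, Multiset.mem_toList] at hi
            exact (Multiset.mem_filter.1 hi).1)) (fun i hi => by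
            rw [hDL, Multiset.mem_toList] at hi
            have : K₀ < (i.2.flatMap Prod.snd).length := (Multiset.mem_filter.1 hi).2
            omega)
        have e5 : (DL.map fun i => (i.2.flatMap Prod.snd).length).sum = sL := by
          rw [hsf, ← hDLc, Multiset.map_coe, Multiset.sum_coe]
        have e6 := sz_counts_le _ s cD hcD1 hcD2
        have e7 := sz_counts_le _ s cT hcT1 hcT2
        have e8 := card_le_mu K₀ (by omega) X
        rw [e5] at e4
        have e9 : (3 * DV + 7) * sL ≤ (3 * DV + 7) * (2 * μ) := Nat.mul_le_mul_left _ (by omega)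
        have e10 : tsD.length * (4 * s + 2) + tsV.length * (4 * s + 2) ≤
            ((tsD.length + tsV.length) * 8) * (s + 2) := by
          nlinarith [Nat.zero_le (tsD.length * s), Nat.zero_le (tsV.length * s)]
        have hL : μ + (s + 2) ≤ x.1.2.length := by omega
        have e11 : (6 * DV + 14) * μ ≤ (6 * DV + 14) * x.1.2.length :=
          Nat.mul_le_mul_left _ (by omega)
        have e12 : ((tsD.length + tsV.length) * 8) * (s + 2) ≤
            ((tsD.length + tsV.length) * 8) * x.1.2.length := Nat.mul_le_mul_left _ (by omega)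
        have e13 : (3 * DV + 7) * (2 * μ) = (6 * DV + 14) * μ := by ring
        have e14 : DQ * 1 ≤ DQ * x.1.2.length := Nat.mul_le_mul_left _ (by omega)
        have e15 : (6 * DV + DQ + (tsD.length + tsV.length) * 8 + 30) * x.1.2.length ≤
          C * x.1.2.length := Nat.mul_le_mul_right _ hC
        have e16 : (6 * DV + DQ + (tsD.length + tsV.length) * 8 + 30) * x.1.2.length =
          (6 * DV + 14) * x.1.2.length + DQ * x.1.2.length +
            ((tsD.length + tsV.length) * 8) * x.1.2.length + 16 * x.1.2.length := by ring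
        show sz y ≤ C * x.1.2.length + C
        omega
      · rw [mchk_iff]
        show x.2.2.1.Perm _
        rw [← Multiset.coe_eq_coe, ← Multiset.map_coe, hmD]
        exact hXD
      · have hi' : i = 0 ∨ i = 1 := by omega
        rcases hi' with rfl | rfl
        · exact ⟨hszc c0 hc0' hlen0 htl0 hT0, by
            show 10 * (c0.1.2).length ≤ _
            rw [hc0']; exact hm10⟩
        · exact ⟨hszc c1 hc1' hlen1 htl1 hT, by
            show 10 * (c1.1.2).length ≤ _
            rw [hc1']; exact hm10⟩
      · have hi' : i = 0 ∨ i = 1 := by omega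
        rcases hi' with rfl | rfl
        · refine ih c0 (by rw [hc0']) hlen0 htl0 hT0 ?_ ?_ ?_ ?_
          · rw [e0X]; exact hpow _ hmu5
          · rw [e0X, hc0', hf'l]; omega
          · rw [hc0']; exact hf'F
          · unfold mJ
            rw [e0X, e0T, hc0']
            exact hJ1
        · refine ih c1 (by rw [hc1']) hlen1 htl1 hT ?_ ?_ ?_ ?_
          · rw [e1X]; exact hpow _ hmu5'
          · rw [e1X, hc1', hf'l]; omega
          · rw [hc1']; exact hf'F
          · unfold mJ
            rw [e1X, e1T, hc1']
            exact hJ2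

end Complete

end Pool.Agent.Lib.LinSpace.Reg
end

section

/-!
Deciding whether a letter derives a word, with a bound for the lengths of all words in between.
-/

set_option autoImplicit false
set_option linter.unusedSimpArgs false

namespace Pool.Agent.Lib.LinSpace.Reg

open RecN

variable {V Q M : Type}

/-- The first instance. -/
def mx0 (C : ℕ) (p : List Bool × ((Q × Q) × (V × List V))) : MI V Q :=
  ((p.1, rep C (true :: p.1)), (p.2.1, ([p.2.2], [])))

theorem two_pow_lt (n s : ℕ) (h : n < 2 ^ s) : n * 3 ^ (2 * s) < 5 ^ (2 * s) := by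
  have h1 : n * 3 ^ (2 * s) < 2 ^ s * 3 ^ (2 * s) := Nat.mul_lt_mul_of_pos_right h (by positivity)
  have h2 : 2 ^ s * 3 ^ (2 * s) = 18 ^ s := by
    rw [pow_mul, ← mul_pow]; norm_num
  have h3 : 5 ^ (2 * s) = 25 ^ s := by rw [pow_mul]; norm_num
  rw [h3]
  rw [h2] at h1
  exact h1.trans_le (Nat.pow_le_pow_left (by norm_num) s)

theorem exists_main [Finite V] [Finite Q] [Finite M] [Enc V] [Enc Q] [Rd V] [Rd Q]
    (S : Sys V Q M) (hc : ∀ m, ∃ d : List V → Bool, Lin d ∧
      ∀ u : List V, d u = true ↔ (u : Multiset V) ∈ S.cond m) :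
    ∃ f : List Bool × ((Q × Q) × (V × List V)) → Bool, Lin f ∧
      ∀ cap q q' a w, 1 ≤ cap.length → w.length ≤ cap.length →
        (f (cap, ((q, q'), (a, w))) = true ↔
          J S cap.length q {(a, w)} 0 q') := by
  classical
  obtain ⟨ρ, hρ⟩ : ∃ ρ, ∀ m a x, S.rule m = some (a, x) → x.length ≤ ρ := by
    obtain ⟨ρ, hρ⟩ := (Set.finite_range fun m => (((S.rule m).map fun p => p.2.length).getD
      0)).bddAbove
    refine ⟨ρ, fun m a x h => ?_⟩
    have := hρ ⟨m, rfl⟩
    simpa [h] using this
  set K₀ := 10 * ρ + 10 with hK₀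
  obtain ⟨bd, hbd, hbd1, hbd2⟩ := exists_bdec S hc K₀
  obtain ⟨G, hG⟩ := gr_fuel
  have hfin := finite_smallD V K₀
  set tsD := hfin.toFinset.toList with htsD
  have hD : tsD.Nodup := Finset.nodup_toList _
  have hD' : ∀ i : V × List (V × List V), i.2.length ≤ K₀ →
      (∀ e ∈ i.2, e.2.length ≤ K₀) → i ∈ tsD := fun i h1 h2 => by
    rw [htsD, Finset.mem_toList, Set.Finite.mem_toFinset]; exact ⟨h1, h2⟩
  have := Fintype.ofFinite V
  set tsV := (Finset.univ : Finset V).toList with htsV
  have hV : tsV.Nodup := Finset.nodup_toList _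
  have hV' : ∀ a : V, a ∈ tsV := fun a => by rw [htsV, Finset.mem_toList]; exact Finset.mem_univ a
  obtain ⟨DV, hDV⟩ := exists_sz_le' V
  obtain ⟨DQ, hDQ⟩ := exists_sz_le' Q
  set C := 6 * DV + DQ + (tsD.length + tsV.length) * 8 + 30 with hC
  set K := 4 * (G + 1) + 2 * DQ + (3 * DV + 5) + 30 with hK
  set f : List Bool × ((Q × Q) × (V × List V)) → Bool := fun p =>
    decide (RecN.Rec C 2 (mbase K₀) (mval K₀ bd) (fun x => x.1.2) (mchk tsD) (mch tsD tsV)
      (K * sz (mx0 (G + 1) p) + K) (mx0 (G + 1) p)) with hf
  refine ⟨f, ?_, ?_⟩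
  · refine RecN.lin_rec (C := C) (K := K) (r := 2) (lin_mbase K₀) (lin_mval K₀ hbd)
      (Lin.snd.comp Lin.fst) (lin_mchk tsD) (lin_mch tsD tsV) (fun x hx => ?_)
      (x0 := mx0 (G + 1)) ((Lin.fst.pair (((Lin.const true).cons Lin.fst).rep (G + 1))).pair
        ((Lin.fst.comp Lin.snd).pair (((Lin.snd.comp Lin.snd).cons (Lin.const [])).pair
          (Lin.const [])))) fun w => by rw [decide_eq_true_eq]
    rw [mbase, Bool.or_eq_false_iff] at hx
    cases h : x.1.2 with
    | nil => rw [h] at hx; simp at hx
    | cons a l => simp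
  · intro cap q q' a w h1 h2
    have hJ : mJ S (mx0 (G + 1) (cap, ((q, q'), (a, w)))) ↔ J S cap.length q {(a, w)} 0 q' :=
      Iff.rfl
    rw [hf, decide_eq_true_eq]
    constructor
    · intro h
      rw [← hJ]
      exact main_sound hbd1 h
    · intro h
      set x := mx0 (G + 1) (cap, ((q, q'), (a, w))) with hx
      have hlen : x.1.2.length = (G + 1) * cap.length + (G + 1) := by
        show (rep (G + 1) (true :: cap)).length = _
        rw [rep_length, List.length_cons, Nat.mul_add, Nat.mul_one]
      have hmu : mu K₀ (x.2.2.1 : Multiset (V × List V)) ≤ w.length := by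
        refine (mu_le_tl K₀ _).trans (le_of_eq ?_)
        rw [tl_coe, Multiset.coe_card]
        show ([(a, w)].flatMap Prod.snd).length = _
        simp
      have hG' := hG cap.length
      refine main_complete (S := S) (K₀ := K₀) hρ (le_refl _) hbd2 hD hD' hV hV' hDV hDQ
        (le_of_eq hC.symm) cap ((G + 1) * cap.length + (G + 1)) ?_ (2 * Nat.size cap.length) x rfl
        h1 ?_ (Nat.zero_le _) ?_ ?_ (le_of_eq hlen) h
      · have e1 : sz x = (sz cap + sz (rep (G + 1) (true :: cap)) + 1) +
            (sz (q, q') + (sz [(a, w)] + sz ([] : List V) + 1) + 1) + 1 := by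
          simp only [hx, mx0, sz_pair]
        have e2 := length_le_sz (rep (G + 1) (true :: cap))
        have e3 := length_le_sz cap
        rw [rep_length, List.length_cons] at e2
        have e4 : K * sz x = 4 * (G + 1) * sz x + 2 * DQ * sz x + (3 * DV + 5) * sz x +
          30 * sz x := by rw [hK]; ring
        have e5 : (3 * DV + 5) * cap.length ≤ (3 * DV + 5) * sz x :=
          Nat.mul_le_mul_left _ (by omega)
        have e6 : (G + 1) * (cap.length + 1) ≤ (G + 1) * sz x := Nat.mul_le_mul_left _ (by omega)
        have e7 : (G + 1) * cap.length + (G + 1) = (G + 1) * (cap.length + 1) := by ring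
        have e8 : 4 * (G + 1) * sz x = 4 * ((G + 1) * sz x) := by ring
        omega
      · show ([(a, w)].flatMap Prod.snd).length ≤ _
        simpa using h2
      · exact two_pow_lt _ _ (lt_of_le_of_lt (hmu.trans h2) (Nat.lt_size_self _))
      · rw [hlen]
        have e1 : (Nat.size cap.length + 2) * gr (2 * Nat.size cap.length) ≤
            (Nat.size cap.length + 2) * gr (2 * Nat.size cap.length + 2) :=
          Nat.mul_le_mul_left _ (gr_mono (by omega))
        have e2 : (G + 1) * cap.length = G * cap.length + cap.length := by ring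
        omega

end Pool.Agent.Lib.LinSpace.Reg
end

section

/-!
Languages generated with linear workspace by context-free grammars with commutative control are
deterministic context-sensitive.
-/

set_option autoImplicit false
set_option linter.unusedSimpArgs false

namespace Pool.Agent.Lib.LinSpace.Reg

open RecN

variable {A : Type}

/-- The system of a grammar. -/
def toSys (G : ControlledGrammar A) : Sys (G.N ⊕ A) G.Q G.M where
  src := G.src
  tgt := G.tgt
  rule m := (G.rule m).map fun p => (Sum.inl p.1, p.2)
  cond m := {s | ∃ u ∈ G.cond m, (u : Multiset (G.N ⊕ A)) = s}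

theorem mem_cond {G : ControlledGrammar A} {m : G.M} {u : List (G.N ⊕ A)} :
    (u : Multiset (G.N ⊕ A)) ∈ (toSys G).cond m ↔ u ∈ G.cond m := by
  constructor
  · rintro ⟨v, hv, h⟩
    exact G.cond_perm m v u (Multiset.coe_eq_coe.1 h) hv
  · exact fun h => ⟨u, h, rfl⟩

theorem step_iff {G : ControlledGrammar A} {B : ℕ} {x y : G.Q × List (G.N ⊕ A)} :
    (G.Step x y ∧ x.2.length ≤ B ∧ y.2.length ≤ B) ↔ WStp (toSys G) B x y := by
  constructor
  · rintro ⟨h, h1, h2⟩
    cases h with
    | skip m u hm hu =>
      exact WStp.skip m u (by simp [toSys, hm]) (mem_cond.2 hu) h1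
    | apply m X x u v hm hu =>
      have e : u ++ [Sum.inl X] ++ v = u ++ Sum.inl X :: v := by simp
      rw [e] at hu h1 ⊢
      exact WStp.rw m (Sum.inl X) x u v (by simp [toSys, hm]) (mem_cond.2 hu) h1 h2
  · intro h
    cases h with
    | skip m u hm hu h1 =>
      refine ⟨.skip m u ?_ (mem_cond.1 hu), h1, h1⟩
      simpa [toSys] using hm
    | rw m a x u v hm hu h1 h2 =>
      obtain ⟨⟨X, x'⟩, hX, he⟩ := Option.map_eq_some_iff.1 hm
      simp only [Prod.mk.injEq] at he
      obtain ⟨rfl, rfl⟩ := he
      have e : u ++ [Sum.inl X] ++ v = u ++ Sum.inl X :: v := by simp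
      refine ⟨?_, h1, h2⟩
      rw [← e]
      exact .apply m X x' u v hX (by rw [e]; exact mem_cond.1 hu)


theorem lin_or {α : Type} [Enc α] {ι : Type} (l : List ι) (f : ι → α → Bool)
    (h : ∀ i, Lin (f i)) : Lin (fun x => l.any fun i => f i x) := by
  induction l with
  | nil => exact Lin.const false
  | cons i l ih =>
    exact ((h i).or ih).of_eq fun x => by rw [List.any_cons]

theorem languageWithin_mem_DCS [Finite A] (G : ControlledGrammar A) (K : ℕ) :
    G.languageWithin K ∈ DCS A := by
  classical
  have : Finite G.N := G.finN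
  have : Finite G.Q := G.finQ
  have : Finite G.M := G.finM
  have : Nonempty G.N := ⟨G.start⟩
  have : Nonempty G.Q := ⟨G.init⟩
  have : Nonempty (G.N ⊕ A) := ⟨Sum.inl G.start⟩
  let _ : Enc A := encFinite A
  let _ : Enc (G.N ⊕ A) := encFinite _
  let _ : Enc G.Q := encFinite _
  let _ : Rd (G.N ⊕ A) := rdFinite _
  let _ : Rd G.Q := rdFinite _
  rcases Nat.eq_zero_or_pos K with rfl | hK
  · refine mem_DCS_of_lin (f := fun _ : List A => false) (Lin.const false) _ fun w => ?_
    simp only [Bool.false_eq_true, false_iff]
    rintro ⟨q, _, h⟩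
    rcases Relation.ReflTransGen.cases_head h with h | ⟨c, h, _⟩
    · simp only [Prod.mk.injEq] at h
      have := h.2
      cases w with
      | nil => simp at this
      | cons a w => simp at this
    · have := h.2.1
      simp at this
  · have hc : ∀ m, ∃ d : List (G.N ⊕ A) → Bool, Lin d ∧
        ∀ u : List (G.N ⊕ A), d u = true ↔ (u : Multiset (G.N ⊕ A)) ∈ (toSys G).cond m := by
      intro m
      exact ⟨_, lin_of_mem_DCS (G.cond_dcs m), fun u => by
        rw [decide_eq_true_eq]; exact mem_cond.symm⟩
    obtain ⟨f, hf, hf'⟩ := exists_main (toSys G) hc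
    have := Fintype.ofFinite G.Q
    set fs : List G.Q := (Finset.univ.filter fun q => q ∈ G.final).toList with hfs
    set cap : List A → List Bool := fun w => rep K (w.map fun _ => true) ++
      List.replicate K true with hcap
    have hcl : ∀ w : List A, (cap w).length = K * w.length + K := fun w => by
      rw [hcap]; simp [rep_length]
    refine mem_DCS_of_lin (f := fun w : List A => fs.any fun q =>
      f (cap w, ((G.init, q), (Sum.inl G.start, w.map Sum.inr)))) ?_ _ fun w => ?_
    · refine lin_or fs (fun q w => f (cap w, ((G.init, q), (Sum.inl G.start, w.map Sum.inr))))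
        fun q => hf.comp ?_
      exact ((((Lin.map' Lin.id (Lin.const true)).rep K).append (Lin.const _))).pair
        ((Lin.const _).pair ((Lin.const _).pair (Lin.map' Lin.id (Lin.of_finite _))))
    · have hle : w.length ≤ K * w.length := Nat.le_mul_of_pos_left _ hK
      rw [List.any_eq_true]
      constructor
      · rintro ⟨q, hq, h⟩
        rw [hfs, Finset.mem_toList, Finset.mem_filter] at hq
        rw [hf' _ _ _ _ _ (by rw [hcl]; omega) (by rw [hcl, List.length_map]; omega)] at h
        refine ⟨q, hq.2, ?_⟩
        have h1 := (wrun_iff (S := toSys G) (W := K * w.length + K) G.init q (Sum.inl G.start)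
          (w.map Sum.inr)).2 (by
            rw [← hcl]
            unfold J at h
            convert h using 2
            simp [fin, tl])
        exact Relation.ReflTransGen.mono (fun x y hxy => step_iff.2 hxy) _ _ h1
      · rintro ⟨q, hq, h⟩
        refine ⟨q, by rw [hfs, Finset.mem_toList, Finset.mem_filter]; exact
          ⟨Finset.mem_univ _, hq⟩, ?_⟩
        rw [hf' _ _ _ _ _ (by rw [hcl]; omega) (by rw [hcl, List.length_map]; omega)]
        have h1 := (wrun_iff (S := toSys G) (W := K * w.length + K) G.init q (Sum.inl G.start)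
          (w.map Sum.inr)).1 (Relation.ReflTransGen.mono (fun x y hxy => step_iff.1 hxy) _ _ h)
        rw [← hcl] at h1
        unfold J
        convert h1 using 2
        simp [fin, tl]

end Pool.Agent.Lib.LinSpace.Reg
end
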