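import Pool.Agent.Lib.LinSpace.RecN
import Pool.Agent.Lib.LinSpace.Load

section

/-!
Context-free rewriting with commutative control: obligations `(a, u)` (the letter `a` has to
derive the word `u`), runs on multisets of obligations.
-/

set_option autoImplicit false
set_option linter.unusedSimpArgs false

namespace Pool.Agent.Lib.LinSpace.Reg

/-- A system: moves between states, each move rewrites one letter (or nothing) and is allowed
under a condition on the multiset of all letters. -/
structure Sys (V Q M : Type) where
  /-- source state -/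
  src : M → Q
  /-- target state -/
  tgt : M → Q
  /-- the rule applied, `none`: the move changes only the state -/
  rule : M → Option (V × List V)
  /-- the condition on the multiset of all letters before the move -/
  cond : M → Set (Multiset V)

variable {V Q M : Type}

/-- One step on configurations `(q, X)`, `X` a multiset of obligations `(a, u)`: the letter `a`
has to derive the word `u`. Only configurations with at most `W` obligations are used. -/
inductive Stp (S : Sys V Q M) (W : ℕ) {α : Type} :
    Q × Multiset (V × List α) → Q × Multiset (V × List α) → Prop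
  | skip (m : M) (X : Multiset (V × List α)) : S.rule m = none → X.map Prod.fst ∈ S.cond m →
      X.card ≤ W → Stp S W (S.src m, X) (S.tgt m, X)
  | rw (m : M) (a : V) (l : List (V × List α)) (R : Multiset (V × List α)) :
      S.rule m = some (a, l.map Prod.fst) → a ::ₘ R.map Prod.fst ∈ S.cond m →
      R.card + 1 ≤ W → R.card + l.length ≤ W →
      Stp S W (S.src m, (a, l.flatMap Prod.snd) ::ₘ R) (S.tgt m, ↑l + R)

/-- Sequences of steps. -/
abbrev Run (S : Sys V Q M) (W : ℕ) {α : Type} :
    Q × Multiset (V × List α) → Q × Multiset (V × List α) → Prop :=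
  Relation.ReflTransGen (Stp S W)

/-- Changing the target word of an obligation. -/
def tm {α β : Type} (f : List α → List β) (i : V × List α) : V × List β := (i.1, f i.2)

/-- All target letters of a configuration. -/
def tl {α : Type} (X : Multiset (V × List α)) : Multiset α := X.bind fun i => (i.2 : Multiset α)

/-- The configurations in which every letter is either its own target (the letters of `F`) or
has an empty target (the letters of `T`). -/
def fin (F T : Multiset V) : Multiset (V × List V) :=
  F.map (fun a => (a, [a])) + T.map (fun a => (a, []))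

/-- All obligations of `X` can be met, leaving the letters `T` as further letters. -/
def J (S : Sys V Q M) (W : ℕ) (q : Q) (X : Multiset (V × List V)) (T : Multiset V) (q' : Q) :
    Prop :=
  Run S W (q, X) (q', fin (tl X) T)

/-- One step on words. -/
inductive WStp (S : Sys V Q M) (W : ℕ) : Q × List V → Q × List V → Prop
  | skip (m : M) (u : List V) : S.rule m = none → (u : Multiset V) ∈ S.cond m → u.length ≤ W →
      WStp S W (S.src m, u) (S.tgt m, u)
  | rw (m : M) (a : V) (x u v : List V) : S.rule m = some (a, x) →
      ((u ++ a :: v : List V) : Multiset V) ∈ S.cond m → (u ++ a :: v).length ≤ W →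
      (u ++ x ++ v).length ≤ W → WStp S W (S.src m, u ++ a :: v) (S.tgt m, u ++ x ++ v)

/-- There is a path of length at most `n`. -/
def Within {σ : Type} (R : σ → σ → Prop) : ℕ → σ → σ → Prop
  | 0, a, b => a = b
  | n + 1, a, b => a = b ∨ ∃ c, R a c ∧ Within R n c b

/-- A sequence growing by factors of at least 10/9. -/
def gr (k : ℕ) : ℕ := 2 ^ (k / 6) * ([900, 1010, 1134, 1273, 1429, 1604].getD (k % 6) 0)

/-- The unary form of the binary number `b` (most significant digit first), as long as it is at
most the length of `cap`. -/
def expand (cap b : List Bool) : List Bool :=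
  b.foldl (fun acc d =>
    if decide ((acc ++ acc ++ (if d then [true] else [])).length ≤ cap.length) then
      acc ++ acc ++ (if d then [true] else []) else acc) []

/-- The list containing the elements of a fixed list with the given (binary) numbers of
occurrences. -/
def expandAll {τ : Type} : List τ → List Bool → List (List Bool) → List τ
  | [], _, _ => []
  | t :: ts, cap, cs => (expand cap (cs.headD [])).map (fun _ => t) ++ expandAll ts cap cs.tail

end Pool.Agent.Lib.LinSpace.Reg
end

section

/-! Runs on obligations: invariance, push, lift. -/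

set_option autoImplicit false
set_option linter.unusedSimpArgs false

namespace Pool.Agent.Lib.LinSpace.Reg

open RecN

variable {V Q M : Type} {α β γ : Type} {S : Sys V Q M} {W : ℕ}

theorem Stp.tl_eq {x y : Q × Multiset (V × List α)} (h : Stp S W x y) : tl y.2 = tl x.2 := by
  cases h with
  | skip => rfl
  | rw m a l R h1 h2 h3 h4 =>
    show tl ((l : Multiset (V × List α)) + R) = tl ((a, l.flatMap Prod.snd) ::ₘ R)
    unfold tl
    rw [Multiset.add_bind, Multiset.cons_bind, Multiset.coe_bind]

theorem Run.tl_eq {x y : Q × Multiset (V × List α)} (h : Run S W x y) : tl y.2 = tl x.2 := by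
  induction h with
  | refl => rfl
  | tail _ h2 ih => rw [h2.tl_eq, ih]

theorem Stp.card_le {x y : Q × Multiset (V × List α)} (h : Stp S W x y) : y.2.card ≤ W := by
  cases h with
  | skip m X h1 h2 h3 => exact h3
  | rw m a l R h1 h2 h3 h4 =>
    show Multiset.card ((l : Multiset (V × List α)) + R) ≤ W
    rw [Multiset.card_add, Multiset.coe_card]
    omega

theorem Run.card_le {x y : Q × Multiset (V × List α)} (h : Run S W x y) (hx : x.2.card ≤ W) :
    y.2.card ≤ W := by
  induction h with
  | refl => exact hx
  | tail _ h2 _ => exact h2.card_le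

theorem map_fst_tm (f : List α → List β) (X : Multiset (V × List α)) :
    (X.map (tm f)).map Prod.fst = X.map Prod.fst := by
  rw [Multiset.map_map]
  rfl

theorem list_map_fst_tm (f : List α → List β) (l : List (V × List α)) :
    (l.map (tm f)).map Prod.fst = l.map Prod.fst := by
  rw [List.map_map]
  rfl

theorem Stp.push (g : α → List β) {x y : Q × Multiset (V × List α)} (h : Stp S W x y) :
    Stp S W (x.1, x.2.map (tm fun u => u.flatMap g)) (y.1, y.2.map (tm fun u => u.flatMap g)) := by
  cases h with
  | skip m X h1 h2 h3 =>
    refine Stp.skip m _ h1 ?_ ?_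
    · rw [map_fst_tm]; exact h2
    · rw [Multiset.card_map]; exact h3
  | rw m a l R h1 h2 h3 h4 =>
    have key := Stp.rw (S := S) (W := W) m a (l.map (tm fun u => u.flatMap g))
      (R.map (tm fun u => u.flatMap g)) (by rw [list_map_fst_tm]; exact h1)
      (by rw [map_fst_tm]; exact h2) (by rw [Multiset.card_map]; exact h3)
      (by rw [Multiset.card_map, List.length_map]; exact h4)
    have e1 : (l.map (tm fun u => u.flatMap g)).flatMap Prod.snd =
        (l.flatMap Prod.snd).flatMap g := by
      rw [List.flatMap_map, List.flatMap_assoc]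
      rfl
    show Stp S W (S.src m, ((a, l.flatMap Prod.snd) ::ₘ R).map (tm fun u => u.flatMap g))
      (S.tgt m, (↑l + R).map (tm fun u => u.flatMap g))
    rw [Multiset.map_cons, Multiset.map_add, Multiset.map_coe]
    rw [e1] at key
    exact key

theorem Run.push (g : α → List β) {q q' : Q} {X X' : Multiset (V × List α)}
    (h : Run S W (q, X) (q', X')) :
    Run S W (q, X.map (tm fun u => u.flatMap g)) (q', X'.map (tm fun u => u.flatMap g)) := by
  have key : ∀ {x y : Q × Multiset (V × List α)}, Run S W x y →
      Run S W (x.1, x.2.map (tm fun u => u.flatMap g)) (y.1, y.2.map (tm fun u => u.flatMap g)) := by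
    intro x y h
    induction h with
    | refl => exact Relation.ReflTransGen.refl
    | tail _ h2 ih => exact ih.tail (h2.push g)
  exact key h

theorem list_lift (f : α → β) (l : List (V × List β)) : ∀ u : List α,
    u.map f = l.flatMap Prod.snd →
    ∃ l' : List (V × List α), l'.map (tm (List.map f)) = l ∧ l'.flatMap Prod.snd = u := by
  induction l with
  | nil =>
    intro u hu
    refine ⟨[], rfl, ?_⟩
    simpa using hu.symm
  | cons a l ih =>
    intro u hu
    rw [List.flatMap_cons, List.map_eq_append_iff] at hu
    obtain ⟨u1, u2, hu12, h1, h2⟩ := hu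
    obtain ⟨l', hl', hu'⟩ := ih u2 h2
    refine ⟨(a.1, u1) :: l', ?_, ?_⟩
    · rw [List.map_cons, hl']
      simp only [tm, h1]
    · rw [List.flatMap_cons, hu', hu12]

theorem Stp.lift (f : α → β) {x y : Q × Multiset (V × List β)} (h : Stp S W x y)
    {X : Multiset (V × List α)} (hX : x.2 = X.map (tm (List.map f))) :
    ∃ X', y.2 = X'.map (tm (List.map f)) ∧ Stp S W (x.1, X) (y.1, X') := by
  classical
  cases h with
  | skip m Z h1 h2 h3 =>
    refine ⟨X, hX, Stp.skip m X h1 ?_ ?_⟩
    · have : Z.map Prod.fst = X.map Prod.fst := by
        rw [show Z = X.map (tm (List.map f)) from hX, map_fst_tm]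
      rw [← this]; exact h2
    · have : Z.card = X.card := by
        rw [show Z = X.map (tm (List.map f)) from hX, Multiset.card_map]
      rw [← this]; exact h3
  | rw m a l R h1 h2 h3 h4 =>
    have hX' : X.map (tm (List.map f)) = (a, l.flatMap Prod.snd) ::ₘ R := hX.symm
    rw [← Multiset.map_eq_cons] at hX'
    obtain ⟨⟨a', u⟩, hmem, hau, hR⟩ := hX'
    have ha : a' = a := congrArg Prod.fst hau
    have hu : u.map f = l.flatMap Prod.snd := congrArg Prod.snd hau
    obtain ⟨l', hl', hu'⟩ := list_lift f l u hu
    subst ha
    refine ⟨↑l' + X.erase (a', u), ?_, ?_⟩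
    · rw [Multiset.map_add, Multiset.map_coe, hl', hR]
    · have e1 : X = (a', l'.flatMap Prod.snd) ::ₘ X.erase (a', u) := by
        rw [hu', Multiset.cons_erase hmem]
      have key := Stp.rw (S := S) (W := W) m a' l' (X.erase (a', u))
        (by rw [h1, ← hl', list_map_fst_tm])
        (by rw [← map_fst_tm (List.map f), hR]; exact h2)
        (by rw [← Multiset.card_map (tm (List.map f)) (X.erase (a', u)), hR]; exact h3)
        (by
          rw [← Multiset.card_map (tm (List.map f)) (X.erase (a', u)), hR,
            ← List.length_map (f := tm (List.map f)), hl']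
          exact h4)
      rw [← e1] at key
      exact key

theorem Run.lift (f : α → β) {q q' : Q} {X : Multiset (V × List α)} {Y : Multiset (V × List β)}
    (h : Run S W (q, X.map (tm (List.map f))) (q', Y)) :
    ∃ X', Y = X'.map (tm (List.map f)) ∧ Run S W (q, X) (q', X') := by
  have key : ∀ {x y : Q × Multiset (V × List β)}, Run S W x y → ∀ X : Multiset (V × List α),
      x.2 = X.map (tm (List.map f)) →
      ∃ X', y.2 = X'.map (tm (List.map f)) ∧ Run S W (x.1, X) (y.1, X') := by
    intro x y h
    induction h with
    | refl => exact fun X hX => ⟨X, hX, Relation.ReflTransGen.refl⟩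
    | tail _ h2 ih =>
      intro X hX
      obtain ⟨X1, h3, h4⟩ := ih X hX
      obtain ⟨X2, h5, h6⟩ := h2.lift f h3
      exact ⟨X2, h5, h4.tail h6⟩
  exact key h X rfl

end Pool.Agent.Lib.LinSpace.Reg
end

section

section

/-!
Decomposing a run at its end: every obligation of the start is cut into the pieces met by the
letters of the final configuration.
-/

set_option autoImplicit false
set_option linter.unusedSimpArgs false

namespace Pool.Agent.Lib.LinSpace.Reg

open RecN

variable {V Q M : Type} {α β γ : Type} {S : Sys V Q M} {W : ℕ}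

open Classical in
/-- The trivial decomposition of an obligation. -/
private noncomputable def decTriv (i : V × List α) : V × List (V × List α) :=
  (i.1, if i.2 = [] then [] else [(i.1, i.2)])

private theorem decTriv_flat (X : Multiset (V × List α)) :
    X = (X.map decTriv).map (tm fun u => u.flatMap Prod.snd) := by
  rw [Multiset.map_map]
  conv_lhs => rw [← Multiset.map_id X]
  refine Multiset.map_congr rfl fun i _ => ?_
  rcases i with ⟨a, u⟩
  by_cases hu : u = []
  · simp [decTriv, tm, hu]
  · simp [decTriv, tm, hu]

private theorem tl_zero' {β : Type} : tl (0 : Multiset (V × List β)) = 0 := rfl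

private theorem tl_cons' {β : Type} (i : V × List β) (X : Multiset (V × List β)) :
    tl (i ::ₘ X) = (i.2 : Multiset β) + tl X := by
  simp [tl, Multiset.cons_bind]

private theorem tl_add' {β : Type} (X Y : Multiset (V × List β)) :
    tl (X + Y) = tl X + tl Y := by
  simp [tl, Multiset.add_bind]

open Classical in
private theorem decTriv_tl (X : Multiset (V × List α)) :
    X = tl (X.map decTriv) +
      ((X.filter fun i => i.2 = []).map Prod.fst).map fun a => (a, []) := by
  induction X using Multiset.induction with
  | empty => simp [tl_zero']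
  | cons i X ih =>
    rcases i with ⟨a, u⟩
    by_cases hu : u = []
    · subst hu
      rw [Multiset.map_cons, tl_cons', Multiset.filter_cons_of_pos (p := fun i : V × List α => i.2 = []) _ rfl, Multiset.map_cons,
        Multiset.map_cons]
      conv_lhs => rw [ih]
      simp [decTriv]
    · rw [Multiset.map_cons, tl_cons', Multiset.filter_cons_of_neg (p := fun i : V × List α => i.2 = []) _ hu]
      conv_lhs => rw [ih]
      simp [decTriv, hu]

open Classical in
private theorem decTriv_fin (X : Multiset (V × List α)) :
    (X.map decTriv).map (tm (List.map Prod.fst)) =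
      fin ((tl (X.map decTriv)).map Prod.fst) ((X.filter fun i => i.2 = []).map Prod.fst) := by
  induction X using Multiset.induction with
  | empty => simp [tl_zero', fin]
  | cons i X ih =>
    rcases i with ⟨a, u⟩
    rw [Multiset.map_cons, Multiset.map_cons, ih, tl_cons']
    by_cases hu : u = []
    · subst hu
      rw [Multiset.filter_cons_of_pos (p := fun i : V × List α => i.2 = []) _ rfl]
      simp [decTriv, tm, fin]
    · rw [Multiset.filter_cons_of_neg (p := fun i : V × List α => i.2 = []) _ hu]
      simp [decTriv, tm, fin, hu]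

private theorem exists_list_map {σ τ : Type} (F : σ → τ) (l : List τ) (E : Multiset σ)
    (h : E.map F = (l : Multiset τ)) : ∃ le : List σ, (le : Multiset σ) = E ∧ le.map F = l := by
  induction l generalizing E with
  | nil =>
    refine ⟨[], ?_, rfl⟩
    have : E.map F = 0 := h
    rw [Multiset.map_eq_zero] at this
    rw [this]; rfl
  | cons t l ih =>
    rw [← Multiset.cons_coe] at h
    have ht : t ∈ E.map F := by rw [h]; exact Multiset.mem_cons_self _ _
    obtain ⟨s, hs, rfl⟩ := Multiset.mem_map.1 ht
    obtain ⟨E', rfl⟩ := Multiset.exists_cons_of_mem hs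
    rw [Multiset.map_cons, Multiset.cons_inj_right] at h
    obtain ⟨le, rfl, rfl⟩ := ih E' h
    exact ⟨s :: le, by simp, by simp⟩

private theorem exists_add_of_map {σ τ : Type} (F : σ → τ) (A B : Multiset τ) (E : Multiset σ)
    (h : E.map F = A + B) : ∃ E1 E2 : Multiset σ, E = E1 + E2 ∧ E1.map F = A ∧ E2.map F = B := by
  induction A using Multiset.induction generalizing E with
  | empty => exact ⟨0, E, by simp, by simp, by simpa using h⟩
  | cons t A ih =>
    rw [Multiset.cons_add] at h
    have ht : t ∈ E.map F := by rw [h]; exact Multiset.mem_cons_self _ _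
    obtain ⟨s, hs, rfl⟩ := Multiset.mem_map.1 ht
    obtain ⟨E', rfl⟩ := Multiset.exists_cons_of_mem hs
    rw [Multiset.map_cons, Multiset.cons_inj_right] at h
    obtain ⟨E1, E2, rfl, rfl, h2⟩ := ih E' h
    exact ⟨s ::ₘ E1, E2, by simp, by simp, h2⟩

private theorem map_tm_fst {β γ : Type} (g : List β → List γ) (D : Multiset (V × List β)) :
    (D.map (tm g)).map Prod.fst = D.map Prod.fst := by
  rw [Multiset.map_map]; rfl

theorem Run.decompose {q p : Q} {X N : Multiset (V × List α)} (h : Run S W (q, X) (p, N)) :
    ∃ (D : Multiset (V × List (V × List α))) (T' : Multiset V),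
      X = D.map (tm fun u => u.flatMap Prod.snd) ∧
      N = tl D + T'.map (fun a => (a, [])) ∧
      (∀ i ∈ D, ∀ e ∈ i.2, e.2 ≠ []) ∧
      Run S W (q, D.map (tm (List.map Prod.fst))) (p, fin ((tl D).map Prod.fst) T') := by
  classical
  suffices H : ∀ c : Q × Multiset (V × List α), Run S W c (p, N) →
      ∃ (D : Multiset (V × List (V × List α))) (T' : Multiset V),
      c.2 = D.map (tm fun u => u.flatMap Prod.snd) ∧
      N = tl D + T'.map (fun a => (a, [])) ∧
      (∀ i ∈ D, ∀ e ∈ i.2, e.2 ≠ []) ∧
      Run S W (c.1, D.map (tm (List.map Prod.fst))) (p, fin ((tl D).map Prod.fst) T') from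
    H (q, X) h
  intro c hc
  induction hc using Relation.ReflTransGen.head_induction_on with
  | refl =>
    refine ⟨N.map decTriv, (N.filter fun i => i.2 = []).map Prod.fst, decTriv_flat N,
      decTriv_tl N, ?_, ?_⟩
    · intro i hi e he
      obtain ⟨j, _, rfl⟩ := Multiset.mem_map.1 hi
      by_cases hj : j.2 = []
      · simp [decTriv, hj] at he
      · simp only [decTriv, hj, if_false, List.mem_singleton] at he
        rw [he]; exact hj
    · rw [decTriv_fin]
  | head hst _ ih =>
    obtain ⟨D1, T', hX1, hN, hne, hrun⟩ := ih
    cases hst with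
    | skip m X hm hcond hW =>
      refine ⟨D1, T', hX1, hN, hne, Relation.ReflTransGen.head ?_ hrun⟩
      refine Stp.skip m _ hm ?_ ?_
      · have : X.map Prod.fst = (D1.map (tm (List.map Prod.fst))).map Prod.fst := by
          rw [map_tm_fst]
          have := congrArg (Multiset.map Prod.fst) hX1
          rw [map_tm_fst] at this
          exact this
        rw [← this]; exact hcond
      · have := congrArg Multiset.card hX1
        rw [Multiset.card_map] at this ⊢
        rw [← this]; exact hW
    | rw m a l R hm hcond hW1 hW2 =>
      simp only at hX1 hrun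
      obtain ⟨E, R', rfl, hE, hR⟩ := exists_add_of_map _ _ _ _ hX1.symm
      obtain ⟨le, rfl, hle⟩ := exists_list_map _ l E hE
      refine ⟨(a, le.flatMap Prod.snd) ::ₘ R', T', ?_, ?_, ?_, ?_⟩
      · rw [Multiset.map_cons, hR]
        rw [← hle]
        simp only [tm, List.flatMap_map, List.flatMap_assoc]
      · rw [hN, tl_cons', tl_add']
        congr 2
        simp [tl, Multiset.coe_bind]
      · intro i hi e he
        rcases Multiset.mem_cons.1 hi with rfl | hi
        · obtain ⟨j, hj, hje⟩ := List.mem_flatMap.1 he
          exact hne j (Multiset.mem_add.2 (Or.inl hj)) e hje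
        · exact hne i (Multiset.mem_add.2 (Or.inr hi)) e he
      · have htl : tl ((a, le.flatMap Prod.snd) ::ₘ R') = tl ((le : Multiset _) + R') := by
          rw [tl_cons', tl_add']
          congr 1
          simp [tl, Multiset.coe_bind]
        rw [htl]
        refine Relation.ReflTransGen.head ?_ hrun
        have hfst : l.map Prod.fst = (le.map (tm (List.map Prod.fst))).map Prod.fst := by
          rw [← hle]
          simp [tm, Function.comp_def]
        have hlen : l.length = (le.map (tm (List.map (Prod.fst : V × List α → V)))).length := by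
          rw [← hle]; simp
        have hRf : R.map Prod.fst = (R'.map (tm (List.map (Prod.fst : V × List α → V)))).map Prod.fst := by
          rw [← hR, map_tm_fst, map_tm_fst]
        have hRc : R.card = (R'.map (tm (List.map (Prod.fst : V × List α → V)))).card := by
          rw [← hR]; simp
        have key := Stp.rw (S := S) (W := W) m a (le.map (tm (List.map (Prod.fst : V × List α → V))))
          (R'.map (tm (List.map Prod.fst))) (by rw [← hfst]; exact hm) (by rw [← hRf]; exact hcond)
          (by rw [← hRc]; exact hW1) (by rw [← hRc, ← hlen]; exact hW2)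
        rw [Multiset.map_cons, Multiset.map_add, Multiset.map_coe]
        convert key using 3
        simp only [tm, List.map_flatMap, List.flatMap_map]

end Pool.Agent.Lib.LinSpace.Reg
end

section

/-!
Binary counts, and a permutation test in linear space.
-/

set_option autoImplicit false

namespace Pool.Agent.Lib.LinSpace.Reg

open RecN

variable {V Q M : Type} {α β γ : Type} {S : Sys V Q M} {W : ℕ}

theorem lin_filterP {α γ : Type} [Enc α] [Enc γ] {l : α → List γ} {p : α × γ → Bool}
    (hl : Lin l) (hp : Lin p) : Lin (fun x => (l x).filter fun b => p (x, b)) := by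
  obtain ⟨q, hq, Hq⟩ := hl.size
  have h := Lin.foldl (step := fun y : α × (List γ × γ) => if p (y.1, y.2.2) then y.2.2 :: y.2.1
    else y.2.1) hl (Lin.const ([] : List γ))
    ((hp.comp (Lin.fst.pair (Lin.snd.comp Lin.snd))).ite
      ((Lin.snd.comp Lin.snd).cons (Lin.fst.comp Lin.snd)) (Lin.fst.comp Lin.snd)) hq (by
      intro x l' hl'
      show sz (l'.foldl (fun s b => if p (x, b) then b :: s else s) []) ≤ q (sz x)
      rw [foldl_filter_eq (fun b => p (x, b)), List.append_nil, sz_reverse]
      exact ((sz_filter_le (fun b => p (x, b)) l').trans (sz_prefix_le hl')).trans (Hq x))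
  exact (h.reverse).of_eq fun x => by
    rw [foldl_filter_eq (fun b => p (x, b))]; simp

/-- The permutation test. -/
theorem perm_iff_filter_aux {γ : Type} [DecidableEq γ] (l l' : List γ) :
    l.Perm l' ↔ ∀ b ∈ l ++ l', (l.filter fun c => decide (c = b)).length =
      (l'.filter fun c => decide (c = b)).length := by
  have h : ∀ (m : List γ) (b : γ), (m.filter fun c => decide (c = b)).length = m.count b := by
    intro m b
    rw [List.count_eq_countP, List.countP_eq_length_filter]
    rfl
  simp only [h]
  rw [List.perm_iff_count]
  refine ⟨fun h b _ => h b, fun h b => ?_⟩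
  by_cases hb : b ∈ l ++ l'
  · exact h b hb
  · rw [List.mem_append, not_or] at hb
    rw [List.count_eq_zero_of_not_mem hb.1, List.count_eq_zero_of_not_mem hb.2]

theorem lin_perm {α γ : Type} [Enc α] [Enc γ] [DecidableEq γ] {f g : α → List γ} (hf : Lin f)
    (hg : Lin g) : Lin (fun x => decide ((f x).Perm (g x))) := by
  have h1 : ∀ {k : α → List γ}, Lin k →
      Lin (fun y : α × γ => (k y.1).filter fun c => decide (c = y.2)) := by
    intro k hk
    exact lin_filterP (l := fun y : α × γ => k y.1)
      (p := fun z : (α × γ) × γ => decide (z.2 = z.1.2)) (hk.comp Lin.fst)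
      (Lin.eq Lin.snd (Lin.snd.comp Lin.fst))
  have h2 := Lin.allP (l := fun x => f x ++ g x)
    (p := fun y : α × γ =>
      decide (((f y.1).filter fun c => decide (c = y.2)).length ≤
        ((g y.1).filter fun c => decide (c = y.2)).length) &&
      decide (((g y.1).filter fun c => decide (c = y.2)).length ≤
        ((f y.1).filter fun c => decide (c = y.2)).length))
    (hf.append hg) ((Lin.lenLe (h1 hf) (h1 hg)).and (Lin.lenLe (h1 hg) (h1 hf)))
  refine h2.of_eq fun x => ?_
  rw [Bool.eq_iff_iff, List.all_eq_true, decide_eq_true_iff, perm_iff_filter_aux]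
  refine forall_congr' fun b => imp_congr_right fun _ => ?_
  rw [Bool.and_eq_true, decide_eq_true_iff, decide_eq_true_iff, ← Nat.le_antisymm_iff]

/-- One step of `expand`. -/
def expStepAux (cap acc : List Bool) (d : Bool) : List Bool :=
  if decide ((acc ++ acc ++ (if d then [true] else [])).length ≤ cap.length) then
    acc ++ acc ++ (if d then [true] else []) else acc

theorem expand_eq_aux (cap b : List Bool) : expand cap b = b.foldl (expStepAux cap) [] := rfl

theorem expStepAux_length_le (cap acc : List Bool) (d : Bool) (h : acc.length ≤ cap.length) :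
    (expStepAux cap acc d).length ≤ cap.length := by
  unfold expStepAux
  by_cases h1 : (acc ++ acc ++ (if d then [true] else [])).length ≤ cap.length
  · rw [if_pos (decide_eq_true h1)]; exact h1
  · rw [if_neg (by simpa using h1)]; exact h

theorem foldl_expStepAux_length_le (cap b : List Bool) :
    ∀ acc : List Bool, acc.length ≤ cap.length →
      (b.foldl (expStepAux cap) acc).length ≤ cap.length := by
  induction b with
  | nil => intro acc h; exact h
  | cons d b ih => intro acc h; exact ih _ (expStepAux_length_le cap acc d h)

theorem expand_length_le (cap b : List Bool) : (expand cap b).length ≤ cap.length :=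
  foldl_expStepAux_length_le cap b [] (Nat.zero_le _)

theorem exists_expand_aux (cap : List Bool) : ∀ (k n : ℕ), n < 2 ^ k → n ≤ cap.length →
    ∃ b : List Bool, b.length ≤ k ∧ (expand cap b).length = n := by
  intro k
  induction k with
  | zero =>
    intro n hn _
    refine ⟨[], le_rfl, ?_⟩
    have : n = 0 := by simpa using hn
    subst this
    rfl
  | succ k ih =>
    intro n hn hc
    obtain ⟨b, hb, hb'⟩ := ih (n / 2) (by rw [pow_succ] at hn; omega) (by omega)
    refine ⟨b ++ [decide (n % 2 = 1)], by simpa using hb, ?_⟩
    rw [expand_eq_aux, List.foldl_append]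
    show (expStepAux cap (b.foldl (expStepAux cap) []) (decide (n % 2 = 1))).length = n
    rw [← expand_eq_aux]
    have hlen : (expand cap b ++ expand cap b ++
        (if decide (n % 2 = 1) then [true] else [])).length = n := by
      rw [List.length_append, List.length_append, hb']
      split
      · next h1 =>
        have := of_decide_eq_true h1
        simp only [List.length_cons, List.length_nil]; omega
      · next h1 =>
        have : ¬ (n % 2 = 1) := fun h => h1 (decide_eq_true h)
        simp only [List.length_nil]; omega
    unfold expStepAux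
    rw [if_pos (by rw [hlen]; exact decide_eq_true hc), hlen]

theorem exists_expand (cap : List Bool) (n : ℕ) (h : n ≤ cap.length) :
    ∃ b : List Bool, b.length ≤ Nat.size cap.length ∧ (expand cap b).length = n :=
  exists_expand_aux cap _ n (lt_of_le_of_lt h (Nat.lt_size_self _)) h

theorem lin_expand_aux : Lin (fun x : List Bool × List Bool => expand x.1 x.2) := by
  have hacc : Lin (fun y : (List Bool × List Bool) × (List Bool × Bool) =>
      y.2.1 ++ y.2.1 ++ (if y.2.2 then [true] else [])) :=
    ((Lin.fst.comp Lin.snd).append (Lin.fst.comp Lin.snd)).append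
      ((Lin.snd.comp Lin.snd).ite (Lin.const [true]) (Lin.const []))
  exact Lin.foldl (step := fun y : (List Bool × List Bool) × (List Bool × Bool) =>
      if decide ((y.2.1 ++ y.2.1 ++ (if y.2.2 then [true] else [])).length ≤ y.1.1.length) then
        y.2.1 ++ y.2.1 ++ (if y.2.2 then [true] else []) else y.2.1)
    Lin.snd (Lin.const ([] : List Bool))
    ((Lin.lenLe hacc (Lin.fst.comp Lin.fst)).ite hacc (Lin.fst.comp Lin.snd))
    (q := fun n => 4 * n + 1) ((LB.id.smul 4).add (LB.const 1)) (by
      intro x l' _
      refine (sz_word_bool _).trans ?_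
      have h1 : (l'.foldl (expStepAux x.1) []).length ≤ x.1.length :=
        foldl_expStepAux_length_le x.1 l' [] (Nat.zero_le _)
      have h2 := length_le_sz x.1
      have h3 : sz x = sz x.1 + sz x.2 + 1 := sz_pair x.1 x.2
      show 4 * (l'.foldl (expStepAux x.1) []).length + 1 ≤ 4 * sz x + 1
      omega)

theorem lin_expandAll {τ : Type} [Enc τ] (ts : List τ) :
    Lin (fun x : List Bool × List (List Bool) => expandAll ts x.1 x.2) := by
  induction ts with
  | nil => exact Lin.const []
  | cons t ts ih =>
    have h1 : Lin (fun x : List Bool × List (List Bool) =>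
        (expand x.1 (x.2.headD [])).map fun _ => t) :=
      Lin.map' (lin_expand_aux.comp (Lin.fst.pair (Lin.headD Lin.snd []))) (Lin.const t)
    exact h1.append (ih.comp (Lin.fst.pair (Lin.tail Lin.snd)))

theorem mem_of_mem_expandAll {τ : Type} {ts : List τ} {cap : List Bool} {cs : List (List Bool)}
    {t : τ} (h : t ∈ expandAll ts cap cs) : t ∈ ts := by
  induction ts generalizing cs with
  | nil => simp [expandAll] at h
  | cons s ts ih =>
    rw [expandAll, List.mem_append] at h
    rcases h with h | h
    · rw [List.mem_map] at h
      obtain ⟨_, _, rfl⟩ := h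
      exact List.mem_cons_self
    · exact List.mem_cons_of_mem _ (ih h)

theorem exists_expandAll {τ : Type} (ts : List τ) (hn : ts.Nodup) (cap : List Bool)
    (l : List τ) (hl : ∀ t ∈ l, t ∈ ts) (hc : l.length ≤ cap.length) :
    ∃ cs : List (List Bool), cs.length = ts.length ∧
      (∀ c ∈ cs, c.length ≤ Nat.size cap.length) ∧ (expandAll ts cap cs).Perm l := by
  classical
  induction ts generalizing l with
  | nil =>
    have : l = [] := List.eq_nil_iff_forall_not_mem.2 fun t ht => by simpa using hl t ht
    subst this
    exact ⟨[], rfl, by simp, by simp [expandAll]⟩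
  | cons t ts ih =>
    obtain ⟨b, hb, hb'⟩ := exists_expand cap (l.count t) (List.count_le_length.trans hc)
    obtain ⟨cs, h1, h2, h3⟩ := ih (List.nodup_cons.1 hn).2 (l.filter fun s => !(s == t))
      (fun s hs => by
        rw [List.mem_filter] at hs
        have h4 := hl s hs.1
        rcases List.mem_cons.1 h4 with h5 | h5
        · subst h5; simp at hs
        · exact h5)
      ((List.length_filter_le _ _).trans hc)
    refine ⟨b :: cs, by simp [h1], ?_, ?_⟩
    · intro c hc'
      rcases List.mem_cons.1 hc' with h5 | h5
      · subst h5; exact hb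
      · exact h2 c h5
    · rw [expandAll, List.headD_cons, List.tail_cons, List.map_const', hb']
      have h5 : List.replicate (l.count t) t = l.filter (fun s => s == t) := by
        rw [List.filter_beq]
      rw [h5]
      exact (List.Perm.append_left _ h3).trans (List.filter_append_perm _ l)

end Pool.Agent.Lib.LinSpace.Reg
end

section

/-!
The measure of a configuration: the total length of the large targets minus their number.
-/

set_option autoImplicit false
set_option linter.unusedSimpArgs false

namespace Pool.Agent.Lib.LinSpace.Reg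

variable {V α : Type}

/-- The measure. -/
def mu (K₀ : ℕ) (X : Multiset (V × List α)) : ℕ :=
  ((X.filter fun i => K₀ < i.2.length).map fun i => i.2.length - 1).sum

theorem mu_zero (K₀ : ℕ) : mu K₀ (0 : Multiset (V × List α)) = 0 := rfl

theorem mu_cons (K₀ : ℕ) (i : V × List α) (X : Multiset (V × List α)) :
    mu K₀ (i ::ₘ X) = (if K₀ < i.2.length then i.2.length - 1 else 0) + mu K₀ X := by
  unfold mu
  rw [Multiset.filter_cons, Multiset.map_add, Multiset.sum_add]
  split <;> simp

theorem mu_add (K₀ : ℕ) (X Y : Multiset (V × List α)) : mu K₀ (X + Y) = mu K₀ X + mu K₀ Y := by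
  unfold mu
  rw [Multiset.filter_add, Multiset.map_add, Multiset.sum_add]

theorem mu_empty (K₀ : ℕ) (T : Multiset V) :
    mu K₀ (T.map fun a => ((a, []) : V × List α)) = 0 := by
  induction T using Multiset.induction_on with
  | empty => rfl
  | cons a T ih => rw [Multiset.map_cons, mu_cons, ih]; simp

theorem mu_list_le (K₀ : ℕ) (l : List (V × List α)) (h : ∀ e ∈ l, e.2 ≠ []) :
    mu K₀ (l : Multiset (V × List α)) + l.length ≤ (l.flatMap Prod.snd).length := by
  induction l with
  | nil => simp [mu_zero]
  | cons e l ih =>
    have h1 := ih fun e he => h e (List.mem_cons_of_mem _ he)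
    have h2 : 0 < e.2.length := List.length_pos_iff.2 (h e (List.mem_cons_self ..))
    rw [← Multiset.cons_coe, mu_cons, List.length_cons, List.flatMap_cons, List.length_append]
    split <;> omega

theorem mu_list_small (K₀ : ℕ) (l : List (V × List α)) (h : (l.flatMap Prod.snd).length ≤ K₀) :
    mu K₀ (l : Multiset (V × List α)) = 0 := by
  induction l with
  | nil => rfl
  | cons e l ih =>
    rw [List.flatMap_cons, List.length_append] at h
    rw [← Multiset.cons_coe, mu_cons, ih (by omega), if_neg (by omega)]

theorem length_le_flatMap (l : List (V × List α)) (h : ∀ e ∈ l, e.2 ≠ []) :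
    l.length ≤ (l.flatMap Prod.snd).length := by
  have := mu_list_le 0 l h
  omega

/-- The measure, the number and the total length of the large targets. -/
theorem mu_add_card (K₀ : ℕ) (X : Multiset (V × List α)) :
    mu K₀ X + (X.filter fun i => K₀ < i.2.length).card =
      ((X.filter fun i => K₀ < i.2.length).map fun i => i.2.length).sum := by
  induction X using Multiset.induction_on with
  | empty => rfl
  | cons i X ih =>
    rw [mu_cons, Multiset.filter_cons, Multiset.map_add, Multiset.sum_add, Multiset.card_add]
    split
    · simp only [Multiset.card_singleton, Multiset.map_singleton, Multiset.sum_singleton]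
      omega
    · simp only [Multiset.card_zero, Multiset.map_zero, Multiset.sum_zero]
      omega

theorem card_le_mu (K₀ : ℕ) (h : 1 ≤ K₀) (X : Multiset (V × List α)) :
    (X.filter fun i => K₀ < i.2.length).card ≤ mu K₀ X := by
  induction X using Multiset.induction_on with
  | empty => exact le_refl _
  | cons i X ih =>
    rw [mu_cons, Multiset.filter_cons, Multiset.card_add]
    split
    · simp only [Multiset.card_singleton]
      omega
    · simp only [Multiset.card_zero]
      omega

theorem mu_le_tl (K₀ : ℕ) (X : Multiset (V × List α)) : mu K₀ X ≤ (tl X).card := by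
  induction X using Multiset.induction_on with
  | empty => exact le_refl _
  | cons i X ih =>
    have h : tl (i ::ₘ X) = (i.2 : Multiset α) + tl X := Multiset.cons_bind ..
    rw [mu_cons, h, Multiset.card_add, Multiset.coe_card]
    split <;> omega

theorem le_mu_of_mem (K₀ : ℕ) (X : Multiset (V × List α)) {i : V × List α} (hi : i ∈ X)
    (h : K₀ < i.2.length) : K₀ ≤ mu K₀ X := by
  obtain ⟨Y, rfl⟩ := Multiset.exists_cons_of_mem hi
  rw [mu_cons, if_pos h]
  omega

section Split

variable {D : Multiset (V × List (V × List α))}

theorem card_filter_map (K₀ : ℕ) :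
    ((D.map (tm fun u => u.flatMap Prod.snd)).filter fun i => K₀ < i.2.length).card =
      (D.filter fun i => K₀ < (i.2.flatMap Prod.snd).length).card := by
  rw [Multiset.filter_map, Multiset.card_map]
  rfl

theorem sum_filter_map (K₀ : ℕ) :
    (((D.map (tm fun u => u.flatMap Prod.snd)).filter fun i => K₀ < i.2.length).map
      fun i => i.2.length).sum =
      ((D.filter fun i => K₀ < (i.2.flatMap Prod.snd).length).map
        fun i => (i.2.flatMap Prod.snd).length).sum := by
  rw [Multiset.filter_map, Multiset.map_map]
  rfl

theorem mu_left (K₀ : ℕ) (h : ∀ i ∈ D, ∀ e ∈ i.2, e.2 ≠ []) :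
    mu K₀ (D.map (tm (List.map Prod.fst))) +
      (D.filter fun i => K₀ < (i.2.flatMap Prod.snd).length).card ≤
      ((D.filter fun i => K₀ < (i.2.flatMap Prod.snd).length).map fun i => i.2.length).sum := by
  induction D using Multiset.induction_on with
  | empty => simp [mu_zero]
  | cons i D ih =>
    have h1 := ih fun i hi => h i (Multiset.mem_cons_of_mem hi)
    have h2 := length_le_flatMap i.2 (h i (Multiset.mem_cons_self ..))
    rw [Multiset.map_cons, mu_cons, Multiset.filter_cons, Multiset.map_add, Multiset.sum_add,
      Multiset.card_add]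
    have h3 : (tm (List.map Prod.fst) i).2.length = i.2.length := by simp [tm]
    rw [h3]
    by_cases hc : K₀ < (i.2.flatMap Prod.snd).length
    · rw [if_pos hc]
      have h4 : 0 < i.2.length := by
        rcases hi : i.2 with _ | ⟨e, l⟩
        · rw [hi] at hc; simp at hc
        · simp
      simp only [Multiset.card_singleton, Multiset.map_singleton, Multiset.sum_singleton]
      split <;> omega
    · rw [if_neg hc, if_neg (by omega)]
      simp only [Multiset.card_zero, Multiset.map_zero, Multiset.sum_zero]
      omega

theorem mu_right (K₀ : ℕ) (T : Multiset V) (h : ∀ i ∈ D, ∀ e ∈ i.2, e.2 ≠ []) :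
    mu K₀ (tl D + T.map fun a => (a, [])) +
      ((D.filter fun i => K₀ < (i.2.flatMap Prod.snd).length).map fun i => i.2.length).sum ≤
      ((D.filter fun i => K₀ < (i.2.flatMap Prod.snd).length).map
        fun i => (i.2.flatMap Prod.snd).length).sum := by
  rw [mu_add, mu_empty, Nat.add_zero]
  induction D using Multiset.induction_on with
  | empty => simp [mu_zero, tl]
  | cons i D ih =>
    have h1 := ih fun i hi => h i (Multiset.mem_cons_of_mem hi)
    have h2 : tl (i ::ₘ D) = (i.2 : Multiset (V × List α)) + tl D := Multiset.cons_bind ..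
    rw [h2, mu_add, Multiset.filter_cons, Multiset.map_add, Multiset.map_add, Multiset.sum_add,
      Multiset.sum_add]
    by_cases hc : K₀ < (i.2.flatMap Prod.snd).length
    · rw [if_pos hc]
      have h3 := mu_list_le K₀ i.2 (h i (Multiset.mem_cons_self ..))
      simp only [Multiset.map_singleton, Multiset.sum_singleton]
      omega
    · rw [if_neg hc, mu_list_small K₀ i.2 (by omega)]
      simp only [Multiset.map_zero, Multiset.sum_zero]
      omega

end Split

end Pool.Agent.Lib.LinSpace.Reg
end

section

/-!
Short paths between configurations with short targets.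
-/

set_option autoImplicit false

namespace Pool.Agent.Lib.LinSpace.Reg

variable {V Q M : Type} {α β γ : Type} {S : Sys V Q M} {W : ℕ}

private theorem Within.self {σ : Type} {R : σ → σ → Prop} (n : ℕ) (a : σ) : Within R n a a := by
  cases n with
  | zero => rfl
  | succ n => exact Or.inl rfl

theorem Within.mono {σ : Type} {R : σ → σ → Prop} {n n' : ℕ} (hn : n ≤ n') {a b : σ}
    (h : Within R n a b) : Within R n' a b := by
  induction n generalizing n' a with
  | zero =>
    have : a = b := h
    subst this
    exact Within.self n' a
  | succ n ih =>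
    obtain ⟨m, rfl⟩ : ∃ m, n' = m + 1 := ⟨n' - 1, by omega⟩
    rcases h with h | ⟨c, h1, h2⟩
    · exact Or.inl h
    · exact Or.inr ⟨c, h1, ih (by omega) h2⟩

theorem Within.refl_trans {σ : Type} {R : σ → σ → Prop} {n : ℕ} {a b : σ} (h : Within R n a b) :
    Relation.ReflTransGen R a b := by
  induction n generalizing a with
  | zero =>
    have : a = b := h
    subst this
    exact Relation.ReflTransGen.refl
  | succ n ih =>
    rcases h with h | ⟨c, h1, h2⟩
    · subst h
      exact Relation.ReflTransGen.refl
    · exact Relation.ReflTransGen.head h1 (ih h2)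

private theorem Within.mono_rel {σ : Type} {R R' : σ → σ → Prop} (hR : ∀ x y, R x y → R' x y)
    {n : ℕ} {a b : σ} (h : Within R n a b) : Within R' n a b := by
  induction n generalizing a with
  | zero => exact h
  | succ n ih =>
    rcases h with h | ⟨c, h1, h2⟩
    · exact Or.inl h
    · exact Or.inr ⟨c, hR _ _ h1, ih h2⟩

private theorem last_visit {σ : Type} {R : σ → σ → Prop} {a b : σ}
    (h : Relation.ReflTransGen R a b) (hab : a ≠ b) :
    ∃ c, c ≠ a ∧ R a c ∧ Relation.ReflTransGen (fun x y => R x y ∧ y ≠ a) c b := by
  induction h with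
  | refl => exact absurd rfl hab
  | @tail b' b _ hs ih =>
    by_cases hb : a = b'
    · subst hb
      exact ⟨b, hab.symm, hs, Relation.ReflTransGen.refl⟩
    · obtain ⟨c, h1, h2, h3⟩ := ih hb
      exact ⟨c, h1, h2, h3.tail ⟨hs, hab.symm⟩⟩

private theorem within_card_aux {σ : Type} : ∀ (k : ℕ) (R : σ → σ → Prop) (s : Finset σ),
    s.card = k → ∀ a b, (∀ c, Relation.ReflTransGen R a c → c ∈ s) →
      Relation.ReflTransGen R a b → Within R k a b := by
  classical
  intro k
  induction k with
  | zero =>
    intro R s hs a b h _
    have h1 := h a Relation.ReflTransGen.refl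
    rw [Finset.card_eq_zero] at hs
    rw [hs] at h1
    exact absurd h1 (Finset.notMem_empty a)
  | succ k ih =>
    intro R s hs a b h hab
    by_cases heq : a = b
    · exact Or.inl heq
    · obtain ⟨c, h1, h2, h3⟩ := last_visit hab heq
      have ha := h a Relation.ReflTransGen.refl
      refine Or.inr ⟨c, h2, Within.mono_rel (fun x y hxy => hxy.1)
        (ih (fun x y => R x y ∧ y ≠ a) (s.erase a) ?_ c b ?_ h3)⟩
      · rw [Finset.card_erase_of_mem ha, hs]; rfl
      · intro d hd
        rw [Finset.mem_erase]
        constructor
        · cases hd with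
          | refl => exact h1
          | tail _ hs => exact hs.2
        · exact h d (Relation.ReflTransGen.head h2
            (Relation.ReflTransGen.mono (fun _ _ hxy => hxy.1) _ _ hd))

theorem within_card {σ : Type} {R : σ → σ → Prop} (s : Finset σ) {a b : σ}
    (hs : ∀ c, Relation.ReflTransGen R a c → c ∈ s) (h : Relation.ReflTransGen R a b) :
    Within R s.card a b := within_card_aux s.card R s rfl a b hs h

private theorem Within.split_add {σ : Type} {R : σ → σ → Prop} {m n : ℕ} {a b : σ}
    (h : Within R (m + n) a b) : ∃ c, Within R m a c ∧ Within R n c b := by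
  induction m generalizing a with
  | zero =>
    rw [Nat.zero_add] at h
    exact ⟨a, rfl, h⟩
  | succ m ih =>
    rw [Nat.add_right_comm] at h
    rcases h with h | ⟨c, h1, h2⟩
    · subst h
      exact ⟨a, Within.self _ _, Within.self _ _⟩
    · obtain ⟨d, h3, h4⟩ := ih h2
      exact ⟨d, Or.inr ⟨c, h1, h3⟩, h4⟩

theorem Within.split {σ : Type} {R : σ → σ → Prop} (r n : ℕ) {a b : σ}
    (h : Within R (r * n) a b) :
    ∃ c : ℕ → σ, c 0 = a ∧ c r = b ∧ ∀ i < r, Within R n (c i) (c (i + 1)) := by
  induction r generalizing a with
  | zero =>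
    rw [Nat.zero_mul] at h
    have : a = b := h
    subst this
    exact ⟨fun _ => a, rfl, rfl, fun i hi => absurd hi (Nat.not_lt_zero i)⟩
  | succ r ih =>
    rw [Nat.succ_mul, Nat.add_comm] at h
    obtain ⟨d, h1, h2⟩ := Within.split_add h
    obtain ⟨c, h3, h4, h5⟩ := ih h2
    refine ⟨fun i => Nat.casesOn i a c, rfl, h4, ?_⟩
    intro i hi
    cases i with
    | zero =>
      change Within R n a (c 0)
      rw [h3]
      exact h1
    | succ i => exact h5 i (by omega)

private theorem flatMap_snd_length_le {V α : Type} {l : List (V × List α)} {i : V × List α}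
    (hi : i ∈ l) : i.2.length ≤ (l.flatMap Prod.snd).length := by
  induction l with
  | nil => exact absurd hi List.not_mem_nil
  | cons j t ih =>
    rw [List.flatMap_cons, List.length_append]
    rcases List.mem_cons.1 hi with rfl | h
    · omega
    · have := ih h
      omega

theorem small_inv {K₀ : ℕ} {x y : Q × Multiset (V × List α)} (h : Run S W x y)
    (hx : ∀ i ∈ x.2, i.2.length ≤ K₀) : ∀ i ∈ y.2, i.2.length ≤ K₀ := by
  induction h with
  | refl => exact hx
  | tail _ hs ih =>
    cases hs with
    | skip m X hm hc hX => exact ih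
    | rw m a l R hm hc hR hR' =>
      intro i hi
      simp only at hi ih
      rcases Multiset.mem_add.1 hi with h | h
      · exact (flatMap_snd_length_le (Multiset.mem_coe.1 h)).trans
          (ih (a, l.flatMap Prod.snd) (Multiset.mem_cons_self _ _))
      · exact ih i (Multiset.mem_cons_of_mem h)

private theorem run_card_le {x y : Q × Multiset (V × List α)} (h : Run S W x y)
    (hx : x.2.card ≤ W) : y.2.card ≤ W := by
  induction h with
  | refl => exact hx
  | tail _ hs ih =>
    cases hs with
    | skip m X hm hc hX => exact hX
    | rw m a l R hm hc hR hR' =>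
      simp only [Multiset.card_add, Multiset.coe_card]
      omega

theorem small_path [Finite V] [Finite Q] (S : Sys V Q M) (K₀ : ℕ) :
    ∃ E : ℕ, ∀ (W : ℕ) (x y : Q × Multiset (V × List V)), (∀ i ∈ x.2, i.2.length ≤ K₀) →
      x.2.card ≤ W → Run S W x y →
      Within (Stp S W) ((2 ^ E) ^ (Nat.size W + 1)) x y := by
  classical
  have hPi : {i : V × List V | i.2.length ≤ K₀}.Finite := by
    have h1 : {u : List V | u.length ≤ K₀}.Finite := List.finite_length_le V K₀
    exact (Set.Finite.prod (Set.finite_univ (α := V)) h1).subset (fun i hi => ⟨trivial, hi⟩)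
  let Pt := {i : V × List V // i.2.length ≤ K₀}
  have : Finite Pt := hPi.to_subtype
  let P := Nat.card Pt
  refine ⟨Nat.card Q + P, fun W x y hx hxW h => ?_⟩
  let C := {c : Q × Multiset (V × List V) // (∀ i ∈ c.2, i.2.length ≤ K₀) ∧ c.2.card ≤ W}
  let f : C → Q × (Pt → Fin (W + 1)) := fun c => (c.1.1, fun i =>
    ⟨c.1.2.count i.1, Nat.lt_succ_of_le ((Multiset.count_le_card _ _).trans c.2.2)⟩)
  have hf : Function.Injective f := by
    rintro ⟨⟨q, X⟩, hX1, hX2⟩ ⟨⟨q', X'⟩, hX1', hX2'⟩ heq
    have h1 : q = q' := congrArg Prod.fst heq
    have h2 : X = X' := by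
      ext i
      by_cases hi : i.2.length ≤ K₀
      · have h3 := congrFun (congrArg Prod.snd heq) ⟨i, hi⟩
        exact congrArg Fin.val h3
      · rw [Multiset.count_eq_zero.2 (fun h => hi (hX1 i h)),
          Multiset.count_eq_zero.2 (fun h => hi (hX1' i h))]
    subst h1
    subst h2
    rfl
  have hCf : Finite C := Finite.of_injective f hf
  have hcard : Nat.card C ≤ (2 ^ (Nat.card Q + P)) ^ (Nat.size W + 1) := by
    refine (Nat.card_le_card_of_injective f hf).trans ?_
    rw [Nat.card_prod, Nat.card_fun, Nat.card_fin]
    have h1 : Nat.card Q ≤ 2 ^ Nat.card Q := Nat.lt_two_pow_self.le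
    have h2 : W + 1 ≤ 2 ^ Nat.size W := Nat.lt_size_self W
    calc Nat.card Q * (W + 1) ^ Nat.card Pt ≤ 2 ^ Nat.card Q * (2 ^ Nat.size W) ^ P :=
          Nat.mul_le_mul h1 (Nat.pow_le_pow_left h2 _)
      _ = 2 ^ (Nat.card Q + Nat.size W * P) := by rw [← pow_mul, ← pow_add]
      _ ≤ 2 ^ ((Nat.card Q + P) * (Nat.size W + 1)) := by
          apply Nat.pow_le_pow_right (by norm_num)
          nlinarith [Nat.zero_le (Nat.card Q * Nat.size W), Nat.zero_le P]
      _ = _ := by rw [← pow_mul]
  have hfin : {c : Q × Multiset (V × List V) |
      (∀ i ∈ c.2, i.2.length ≤ K₀) ∧ c.2.card ≤ W}.Finite := Set.finite_coe_iff.1 hCf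
  have hw := within_card (R := Stp S W) hfin.toFinset (a := x) (b := y) (by
    intro c hc
    rw [Set.Finite.mem_toFinset]
    exact ⟨small_inv hc hx, run_card_le hc hxW⟩) h
  refine Within.mono ?_ hw
  rw [← Nat.card_eq_card_finite_toFinset hfin]
  exact hcard

end Pool.Agent.Lib.LinSpace.Reg
end

section

/-!
Derivations of words and runs on multisets of obligations.
-/

set_option autoImplicit false

namespace Pool.Agent.Lib.LinSpace.Reg

variable {V Q M : Type} {S : Sys V Q M} {W : ℕ}

/-- From words to obligations. -/
private theorem run_of_wrun {x y : Q × List V} (h : Relation.ReflTransGen (WStp S W) x y) :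
    ∃ l : List (V × List V), l.map Prod.fst = x.2 ∧ l.flatMap Prod.snd = y.2 ∧
      Run S W (x.1, (l : Multiset (V × List V)))
        (y.1, ((y.2.map fun b => (b, [b]) : List (V × List V)) : Multiset (V × List V))) := by
  induction h using Relation.ReflTransGen.head_induction_on with
  | refl =>
    refine ⟨y.2.map fun b => (b, [b]), ?_, ?_, Relation.ReflTransGen.refl⟩
    · simp [List.map_map, Function.comp_def]
    · simp [List.flatMap_map]
  | head hs _ ih =>
    obtain ⟨l, h1, h2, h3⟩ := ih
    cases hs with
    | skip m u hm hc hl =>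
      refine ⟨l, h1, h2, Relation.ReflTransGen.head ?_ h3⟩
      simp only at h1
      refine Stp.skip m _ hm ?_ ?_
      · rw [Multiset.map_coe, h1]; exact hc
      · rw [Multiset.coe_card, ← List.length_map (f := Prod.fst), h1]; exact hl
    | rw m a x u v hm hc hl hl' =>
      simp only at h1
      obtain ⟨l12, lv, rfl, h12, hv⟩ := List.map_eq_append_iff.1 h1
      obtain ⟨lu, lx, rfl, hu, hx⟩ := List.map_eq_append_iff.1 h12
      refine ⟨lu ++ (a, lx.flatMap Prod.snd) :: lv, ?_, ?_, Relation.ReflTransGen.head ?_ h3⟩
      · simp [hu, hv]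
      · rw [← h2]; simp
      · have e1 : ((lu ++ (a, lx.flatMap Prod.snd) :: lv : List (V × List V)) :
            Multiset (V × List V)) = (a, lx.flatMap Prod.snd) ::ₘ ((lu ++ lv : List _) :
            Multiset (V × List V)) := by
          rw [Multiset.cons_coe, Multiset.coe_eq_coe]
          exact List.perm_middle
        have e2 : ((lu ++ lx ++ lv : List (V × List V)) : Multiset (V × List V)) =
            ↑lx + ((lu ++ lv : List _) : Multiset (V × List V)) := by
          rw [Multiset.coe_add, Multiset.coe_eq_coe, ← List.append_assoc]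
          exact List.Perm.append_right _ List.perm_append_comm
        rw [e1, e2]
        refine Stp.rw m a lx _ ?_ ?_ ?_ ?_
        · rw [hx]; exact hm
        · have e3 : a ::ₘ ((lu ++ lv : List (V × List V)) : Multiset (V × List V)).map Prod.fst =
              ((u ++ a :: v : List V) : Multiset V) := by
            rw [Multiset.map_coe, List.map_append, hu, hv, Multiset.cons_coe, Multiset.coe_eq_coe]
            exact List.perm_middle.symm
          rw [e3]; exact hc
        · rw [Multiset.coe_card, List.length_append]
          rw [← hu, ← hv] at hl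
          simp only [List.length_append, List.length_map, List.length_cons] at hl
          omega
        · rw [Multiset.coe_card, List.length_append]
          rw [← hu, ← hv, ← hx] at hl'
          simp only [List.length_append, List.length_map] at hl'
          omega

/-- From obligations to words. -/
private theorem wrun_of_run {x y : Q × Multiset (V × List V)} (h : Run S W x y) :
    ∀ l : List (V × List V), (l : Multiset (V × List V)) = x.2 →
      ∃ l' : List (V × List V), (l' : Multiset (V × List V)) = y.2 ∧
        l'.flatMap Prod.snd = l.flatMap Prod.snd ∧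
        Relation.ReflTransGen (WStp S W) (x.1, l.map Prod.fst) (y.1, l'.map Prod.fst) := by
  induction h using Relation.ReflTransGen.head_induction_on with
  | refl => exact fun l hl => ⟨l, hl, rfl, Relation.ReflTransGen.refl⟩
  | head hs _ ih =>
    intro l hl
    cases hs with
    | skip m X hm hc hX =>
      simp only at hl
      subst hl
      obtain ⟨l', h1, h2, h3⟩ := ih l rfl
      refine ⟨l', h1, h2, Relation.ReflTransGen.head ?_ h3⟩
      refine WStp.skip m _ hm ?_ ?_
      · rw [← Multiset.map_coe]; exact hc
      · rw [List.length_map, ← Multiset.coe_card]; exact hX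
    | rw m a l0 R hm hc hR hR' =>
      simp only at hl
      have hmem : (a, l0.flatMap Prod.snd) ∈ l := by
        rw [← Multiset.mem_coe, hl]
        exact Multiset.mem_cons_self _ _
      obtain ⟨s, t, rfl⟩ := List.append_of_mem hmem
      have hRst : R = ((s ++ t : List (V × List V)) : Multiset (V × List V)) := by
        have e1 : ((s ++ (a, l0.flatMap Prod.snd) :: t : List (V × List V)) :
            Multiset (V × List V)) = (a, l0.flatMap Prod.snd) ::ₘ ((s ++ t : List _) :
            Multiset (V × List V)) := by
          rw [Multiset.cons_coe, Multiset.coe_eq_coe]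
          exact List.perm_middle
        rw [e1] at hl
        exact ((Multiset.cons_inj_right _).1 hl).symm
      subst hRst
      obtain ⟨l', h1, h2, h3⟩ := ih (s ++ l0 ++ t) (by
        simp only
        rw [Multiset.coe_add, Multiset.coe_eq_coe, ← List.append_assoc]
        exact List.Perm.append_right _ List.perm_append_comm)
      refine ⟨l', h1, ?_, Relation.ReflTransGen.head ?_ h3⟩
      · rw [h2]; simp
      · simp only [List.map_append, List.map_cons]
        refine WStp.rw m a _ _ _ hm ?_ ?_ ?_
        · have e3 : a ::ₘ ((s ++ t : List (V × List V)) : Multiset (V × List V)).map Prod.fst =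
              ((s.map Prod.fst ++ a :: t.map Prod.fst : List V) : Multiset V) := by
            rw [Multiset.map_coe, List.map_append, Multiset.cons_coe, Multiset.coe_eq_coe]
            exact List.perm_middle.symm
          rw [← e3]; exact hc
        · rw [Multiset.coe_card, List.length_append] at hR
          simp only [List.length_append, List.length_map, List.length_cons]
          omega
        · rw [Multiset.coe_card, List.length_append] at hR'
          simp only [List.length_append, List.length_map]
          omega

theorem wrun_iff (q q' : Q) (a : V) (w : List V) :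
    Relation.ReflTransGen (WStp S W) (q, [a]) (q', w) ↔
      Run S W (q, {(a, w)}) (q', ((w.map fun b => (b, [b]) : List (V × List V)) :
        Multiset (V × List V))) := by
  constructor
  · intro h
    obtain ⟨l, h1, h2, h3⟩ := run_of_wrun h
    simp only at h1 h2 h3
    obtain ⟨i, rfl⟩ : ∃ i, l = [i] := by
      rw [← List.length_eq_one_iff, ← List.length_map (f := Prod.fst), h1]
      rfl
    simp only [List.map_cons, List.map_nil, List.cons.injEq, and_true] at h1
    simp only [List.flatMap_cons, List.flatMap_nil, List.append_nil] at h2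
    have : i = (a, w) := Prod.ext h1 h2
    subst this
    exact h3
  · intro h
    obtain ⟨l', h1, h2, h3⟩ := wrun_of_run h [(a, w)] rfl
    simp only at h1 h2 h3
    have h4 : l'.map Prod.fst = l'.flatMap Prod.snd := by
      have hall : ∀ i ∈ l', i.2 = [i.1] := by
        intro i hi
        rw [← Multiset.mem_coe, h1, Multiset.mem_coe, List.mem_map] at hi
        obtain ⟨b, _, rfl⟩ := hi
        rfl
      clear h1 h2 h3
      induction l' with
      | nil => rfl
      | cons i t ih =>
        rw [List.map_cons, List.flatMap_cons, hall i (List.mem_cons_self), ih fun j hj =>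
          hall j (List.mem_cons_of_mem _ hj)]
        rfl
    rw [h4, h2] at h3
    simpa using h3

end Pool.Agent.Lib.LinSpace.Reg
end

section

/-!
Testing one step in linear space.
-/

set_option autoImplicit false

namespace Pool.Agent.Lib.LinSpace.Reg

variable {V Q M : Type}

private theorem lin_any {α ι : Type} [Enc α] (L : List ι) (f : ι → α → Bool)
    (hf : ∀ i ∈ L, Lin (f i)) : Lin (fun x => L.any fun i => f i x) := by
  induction L with
  | nil => exact (Lin.const false).of_eq fun x => rfl
  | cons i L ih =>
    exact ((hf i (by simp)).or (ih fun j hj => hf j (by simp [hj]))).of_eq fun x => rfl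

/-- lists with given first components and total length of the second ones bounded -/
private theorem finite_lists [Finite V] (K₀ : ℕ) (y : List V) :
    {l : List (V × List V) | l.map Prod.fst = y ∧ (l.flatMap Prod.snd).length ≤ K₀}.Finite := by
  induction y with
  | nil =>
    refine (Set.finite_singleton ([] : List (V × List V))).subset ?_
    rintro l ⟨h, _⟩
    simpa using h
  | cons a y ih =>
    have hf : {u : List V | u.length ≤ K₀}.Finite := List.finite_length_le V K₀
    refine ((hf.prod ih).image fun p => (a, p.1) :: p.2).subset ?_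
    rintro l ⟨h1, h2⟩
    cases l with
    | nil => simp at h1
    | cons e l =>
      simp only [List.map_cons, List.cons.injEq] at h1
      simp only [List.flatMap_cons, List.length_append] at h2
      refine ⟨(e.2, l), ⟨?_, h1.2, ?_⟩, ?_⟩
      · show e.2.length ≤ K₀
        omega
      · show (l.flatMap Prod.snd).length ≤ K₀
        omega
      · simp only [← h1.1]

theorem exists_step [Finite V] [Finite Q] [Finite M] [Enc V] [Enc Q] (S : Sys V Q M)
    (hc : ∀ m, ∃ d : List V → Bool, Lin d ∧
      ∀ u : List V, d u = true ↔ (u : Multiset V) ∈ S.cond m) (K₀ : ℕ) :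
    ∃ st : List Bool × ((Q × List (V × List V)) × (Q × List (V × List V))) → Bool, Lin st ∧
      (∀ x, st x = true →
        Stp S x.1.length (x.2.1.1, (x.2.1.2 : Multiset (V × List V)))
          (x.2.2.1, (x.2.2.2 : Multiset (V × List V)))) ∧
      (∀ x, (∀ i ∈ x.2.1.2, i.2.length ≤ K₀) →
        Stp S x.1.length (x.2.1.1, (x.2.1.2 : Multiset (V × List V)))
          (x.2.2.1, (x.2.2.2 : Multiset (V × List V))) → st x = true) := by
  classical
  choose d hd1 hd2 using hc
  let α := List Bool × ((Q × List (V × List V)) × (Q × List (V × List V)))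
  -- common part
  let com : M → α → Bool := fun m x =>
    decide (x.2.1.1 = S.src m) && (decide (x.2.2.1 = S.tgt m) && (d m (x.2.1.2.map Prod.fst) &&
      (decide (x.2.1.2.length ≤ x.1.length) && decide (x.2.2.2.length ≤ x.1.length))))
  have hX : Lin (fun x : α => x.2.1.2) := Lin.snd.comp (Lin.fst.comp Lin.snd)
  have hY : Lin (fun x : α => x.2.2.2) := Lin.snd.comp (Lin.snd.comp Lin.snd)
  have hcom : ∀ m, Lin (com m) := fun m =>
    (Lin.eq (Lin.fst.comp (Lin.fst.comp Lin.snd)) (Lin.const _)).and
      ((Lin.eq (Lin.fst.comp (Lin.snd.comp Lin.snd)) (Lin.const _)).and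
        (((hd1 m).comp (Lin.map' hX Lin.fst)).and
          ((Lin.lenLe hX Lin.fst).and (Lin.lenLe hY Lin.fst))))
  -- the part depending on the rule
  let one : V → List (V × List V) → α → Bool := fun a l x =>
    (!(x.2.1.2.filter fun i => decide (i = (a, l.flatMap Prod.snd))).isEmpty) &&
      decide (((a, l.flatMap Prod.snd) :: x.2.2.2).Perm (l ++ x.2.1.2))
  have hone : ∀ a l, Lin (one a l) := fun a l =>
    ((Lin.isEmpty (Lin.filter hX (Lin.eq Lin.id (Lin.const _)))).not).and
      (lin_perm (Lin.cons (Lin.const _) hY) ((Lin.const l).append hX))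
  let Ls : List V → List (List (V × List V)) := fun y => (finite_lists K₀ y).toFinset.toList
  let rp : M → α → Bool := fun m =>
    match S.rule m with
    | none => fun x => decide (x.2.1.2.Perm x.2.2.2)
    | some (a, y) => fun x => (Ls y).any fun l => one a l x
  have hrp : ∀ m, Lin (rp m) := by
    intro m
    simp only [rp]
    cases S.rule m with
    | none => exact lin_perm hX hY
    | some p => exact lin_any _ _ fun l _ => hone _ l
  let _ : Fintype M := Fintype.ofFinite M
  refine ⟨fun x => (Finset.univ : Finset M).toList.any fun m => com m x && rp m x,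
    lin_any _ _ fun m _ => (hcom m).and (hrp m), ?_, ?_⟩
  · intro x hx
    obtain ⟨m, _, hm⟩ := List.any_eq_true.1 hx
    rw [Bool.and_eq_true] at hm
    obtain ⟨hm1, hm2⟩ := hm
    simp only [com, Bool.and_eq_true, decide_eq_true_eq] at hm1
    obtain ⟨e1, e2, e3, e4, e5⟩ := hm1
    rw [hd2, ← Multiset.map_coe] at e3
    rw [e1, e2]
    simp only [rp] at hm2
    cases hr : S.rule m with
    | none =>
      rw [hr] at hm2
      have hp : x.2.1.2.Perm x.2.2.2 := by simpa using hm2
      rw [← Multiset.coe_eq_coe.2 hp]
      exact Stp.skip m _ hr e3 (by simpa using e4)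
    | some p =>
      obtain ⟨a, y⟩ := p
      rw [hr] at hm2
      obtain ⟨l, hl, hone⟩ := List.any_eq_true.1 hm2
      have hl' : l.map Prod.fst = y ∧ (l.flatMap Prod.snd).length ≤ K₀ := by
        have := Finset.mem_toList.1 hl
        rwa [Set.Finite.mem_toFinset] at this
      simp only [one, Bool.and_eq_true, decide_eq_true_eq, Bool.not_eq_true',
        List.isEmpty_eq_false_iff, ne_eq, List.filter_eq_nil_iff, not_forall] at hone
      obtain ⟨⟨b, hb, hbe⟩, hp⟩ := hone
      rw [not_not] at hbe
      rw [hbe] at hb
      obtain ⟨R, hR⟩ := Multiset.exists_cons_of_mem (Multiset.mem_coe.2 hb)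
      have hp' := Multiset.coe_eq_coe.2 hp
      rw [← Multiset.cons_coe, ← Multiset.coe_add, hR, Multiset.add_cons] at hp'
      have hY' := (Multiset.cons_inj_right _).1 hp'
      rw [hR, Multiset.map_cons] at e3
      rw [hR, hY']
      have c1 : R.card + 1 ≤ x.1.length := by
        rw [← Multiset.card_cons (a, l.flatMap Prod.snd) R, ← hR]; simpa using e4
      have c2 : R.card + l.length ≤ x.1.length := by
        have : Multiset.card (x.2.2.2 : Multiset (V × List V)) ≤ x.1.length := by simpa using e5
        rw [hY', Multiset.card_add, Multiset.coe_card] at this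
        omega
      exact Stp.rw m a l R (by rw [hr, hl'.1]) e3 c1 c2
  · rintro ⟨cap, ⟨q, X⟩, ⟨q', Y⟩⟩ hK hs
    simp only at hK hs
    generalize hX' : (X : Multiset (V × List V)) = X' at hs
    generalize hY' : (Y : Multiset (V × List V)) = Y' at hs
    rw [List.any_eq_true]
    cases hs with
    | skip m _ hr hcnd hcard =>
      refine ⟨m, Finset.mem_toList.2 (Finset.mem_univ m), ?_⟩
      have hp : X.Perm Y := Multiset.coe_eq_coe.1 (hX'.trans hY'.symm)
      rw [← hX'] at hcnd hcard
      rw [Multiset.coe_card] at hcard
      rw [Bool.and_eq_true]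
      constructor
      · simp only [com, Bool.and_eq_true, decide_eq_true_eq, true_and]
        exact ⟨(hd2 m _).2 (by rw [← Multiset.map_coe]; exact hcnd), hcard,
          by rw [← hp.length_eq]; exact hcard⟩
      · simp only [rp, hr]
        simpa using hp
    | rw m a l R hr hcnd h1 h2 =>
      refine ⟨m, Finset.mem_toList.2 (Finset.mem_univ m), ?_⟩
      have hmem : (a, l.flatMap Prod.snd) ∈ X := by
        rw [← Multiset.mem_coe, hX']; simp
      have cX : X.length = R.card + 1 := by
        rw [← Multiset.coe_card, hX', Multiset.card_cons]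
      have cY : Y.length = R.card + l.length := by
        rw [← Multiset.coe_card, hY', Multiset.card_add, Multiset.coe_card, add_comm]
      rw [Bool.and_eq_true]
      constructor
      · simp only [com, Bool.and_eq_true, decide_eq_true_eq, true_and]
        refine ⟨(hd2 m _).2 ?_, by omega, by omega⟩
        rw [← Multiset.map_coe, hX', Multiset.map_cons]
        exact hcnd
      · simp only [rp, hr]
        rw [List.any_eq_true]
        refine ⟨l, ?_, ?_⟩
        · simp only [Ls, Finset.mem_toList, Set.Finite.mem_toFinset]
          exact ⟨rfl, hK _ hmem⟩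
        · simp only [one, Bool.and_eq_true, decide_eq_true_eq, Bool.not_eq_true',
            List.isEmpty_eq_false_iff, ne_eq, List.filter_eq_nil_iff, not_forall]
          refine ⟨⟨_, hmem, by simp⟩, ?_⟩
          rw [← Multiset.coe_eq_coe, ← Multiset.cons_coe, ← Multiset.coe_add, hX', hY',
            Multiset.add_cons]

end Pool.Agent.Lib.LinSpace.Reg
end

section

/-!
Splitting a run in time, at a moment at which a prescribed number of letters have large targets.
-/

set_option autoImplicit false
set_option linter.unusedSimpArgs false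

namespace Pool.Agent.Lib.LinSpace.Reg

open RecN

variable {V Q M : Type} {α β γ : Type} {S : Sys V Q M} {W : ℕ}

theorem threshold {σ : Type} {R : σ → σ → Prop} {f : σ → ℕ} {ρ H : ℕ}
    (hR : ∀ x y, R x y → f y ≤ f x + ρ) {a b : σ} (h : Relation.ReflTransGen R a b)
    (ha : f a ≤ H) (hb : H ≤ f b) :
    ∃ c, Relation.ReflTransGen R a c ∧ Relation.ReflTransGen R c b ∧ H ≤ f c ∧ f c ≤ H + ρ := by
  induction h using Relation.ReflTransGen.head_induction_on with
  | refl => exact ⟨b, .refl, .refl, hb, by omega⟩
  | @head x y hxy hyb ih =>
    by_cases hx : H ≤ f x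
    · exact ⟨x, .refl, .head hxy hyb, hx, by omega⟩
    · by_cases hy : f y ≤ H
      · obtain ⟨c, h1, h2, h3, h4⟩ := ih hy
        exact ⟨c, .head hxy h1, h2, h3, h4⟩
      · have := hR x y hxy
        exact ⟨y, .single hxy, hyb, by omega, by omega⟩

private theorem tl_cons'' {β : Type} (i : V × List β) (X : Multiset (V × List β)) :
    tl (i ::ₘ X) = (i.2 : Multiset β) + tl X := by
  simp [tl, Multiset.cons_bind]

private theorem tl_map_tm {α β : Type} (f : α → β) (X : Multiset (V × List α)) :
    tl (X.map (tm (List.map f))) = (tl X).map f := by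
  induction X using Multiset.induction with
  | empty => rfl
  | cons i X ih => rw [Multiset.map_cons, tl_cons'', tl_cons'', ih, Multiset.map_add]; rfl

/-- 1 if the first letter is coloured `true`. -/
private def hdc (u : List (V × Bool)) : ℕ := if u.head?.map Prod.snd = some true then 1 else 0

private theorem hdc_le (u : List (V × Bool)) : hdc u ≤ 1 := by unfold hdc; split <;> omega

private theorem hdc_nil : hdc ([] : List (V × Bool)) = 0 := by simp [hdc]

/-- The number of letters with a target starting with a letter coloured `true`. -/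
private def ff (X : Multiset (V × List (V × Bool))) : ℕ := (X.map fun i => hdc i.2).sum

private theorem ff_cons (i : V × List (V × Bool)) (X : Multiset (V × List (V × Bool))) :
    ff (i ::ₘ X) = hdc i.2 + ff X := by simp [ff]

private theorem ff_add (X Y : Multiset (V × List (V × Bool))) : ff (X + Y) = ff X + ff Y := by
  simp [ff]

private theorem ff_coe_le (l : List (V × List (V × Bool))) :
    ff (l : Multiset (V × List (V × Bool))) ≤ l.length := by
  induction l with
  | nil => simp [ff]
  | cons i l ih =>
    rw [← Multiset.cons_coe, ff_cons, List.length_cons]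
    have := hdc_le i.2
    omega

/-- The colouring of the targets: large targets are coloured `true`. -/
private def col (K₀ : ℕ) (i : V × List V) : V × List (V × Bool) :=
  (i.1, i.2.map fun a => (a, decide (K₀ < i.2.length)))

private theorem col_fst (K₀ : ℕ) (X : Multiset (V × List V)) :
    (X.map (col K₀)).map (tm (List.map Prod.fst)) = X := by
  rw [Multiset.map_map]
  conv_rhs => rw [← Multiset.map_id X]
  refine Multiset.map_congr rfl fun i _ => ?_
  rcases i with ⟨a, u⟩
  simp [col, tm, Function.comp_def]

private theorem ff_col_le (K₀ : ℕ) (X : Multiset (V × List V)) :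
    ff (X.map (col K₀)) ≤ (X.filter fun i => K₀ < i.2.length).card := by
  induction X using Multiset.induction with
  | empty => simp [ff]
  | cons i X ih =>
    rw [Multiset.map_cons, ff_cons]
    by_cases hi : K₀ < i.2.length
    · rw [Multiset.filter_cons_of_pos (p := fun i : V × List V => K₀ < i.2.length) _ hi,
        Multiset.card_cons]
      have := hdc_le (col K₀ i).2
      omega
    · rw [Multiset.filter_cons_of_neg (p := fun i : V × List V => K₀ < i.2.length) _ hi]
      have : hdc (col K₀ i).2 = 0 := by
        rcases i with ⟨a, u⟩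
        simp only at hi
        cases u with
        | nil => simp [col, hdc]
        | cons b u => simp only [List.length_cons, not_lt] at hi; simp [col, hdc]; omega
      omega

private theorem ff_end (N : Multiset (V × List (V × Bool))) (hN : ∀ i ∈ N, i.2.length ≤ 1) :
    ff N = (tl N).countP (fun e => e.2 = true) := by
  induction N using Multiset.induction with
  | empty => rfl
  | cons i N ih =>
    rw [ff_cons, tl_cons'', Multiset.countP_add, ih fun j hj => hN j (Multiset.mem_cons_of_mem hj)]
    congr 1
    have := hN i (Multiset.mem_cons_self _ _)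
    rcases i with ⟨a, u⟩
    match u, this with
    | [], _ => simp [hdc]
    | [e], _ =>
      rcases e with ⟨e, c⟩
      rw [Multiset.coe_countP]
      cases c <;> simp [hdc, List.countP_cons]
    | _ :: _ :: _, h => simp at h

private theorem countP_col (K₀ : ℕ) (X : Multiset (V × List V)) :
    (tl (X.map (col K₀))).countP (fun e => e.2 = true) =
      ((X.filter fun i => K₀ < i.2.length).map fun i => i.2.length).sum := by
  induction X using Multiset.induction with
  | empty => rfl
  | cons i X ih =>
    rw [Multiset.map_cons, tl_cons'', Multiset.countP_add, ih]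
    by_cases hi : K₀ < i.2.length
    · rw [Multiset.filter_cons_of_pos (p := fun i : V × List V => K₀ < i.2.length) _ hi,
        Multiset.map_cons, Multiset.sum_cons]
      congr 1
      simp [col, hi, List.countP_map, Function.comp_def]
    · rw [Multiset.filter_cons_of_neg (p := fun i : V × List V => K₀ < i.2.length) _ hi]
      have : Multiset.countP (fun e : V × Bool => e.2 = true) ((col K₀ i).2 : Multiset (V × Bool))
          = 0 := by
        simp [col, hi, List.countP_map, Function.comp_def]
      omega

private theorem sum_tl {β : Type} (g : β → ℕ) (D : Multiset (V × List β)) :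
    ((tl D).map g).sum = (D.map fun i => (i.2.map g).sum).sum := by
  induction D using Multiset.induction with
  | empty => rfl
  | cons i D ih =>
    rw [tl_cons'', Multiset.map_add, Multiset.sum_add, ih, Multiset.map_cons, Multiset.sum_cons]
    simp

private theorem sum_filter_eq {σ : Type} (p : σ → Prop) [DecidablePred p] (g : σ → ℕ)
    (D : Multiset σ) : ((D.filter p).map g).sum = (D.map fun i => if p i then g i else 0).sum := by
  induction D using Multiset.induction with
  | empty => rfl
  | cons i D ih =>
    by_cases hi : p i
    · rw [Multiset.filter_cons_of_pos _ hi, Multiset.map_cons, Multiset.sum_cons, ih,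
        Multiset.map_cons, Multiset.sum_cons, if_pos hi]
    · rw [Multiset.filter_cons_of_neg _ hi, ih, Multiset.map_cons, Multiset.sum_cons, if_neg hi,
        zero_add]

theorem J.split {ρ : ℕ} (hρ : ∀ m a x, S.rule m = some (a, x) → x.length ≤ ρ) {q q' : Q}
    {X : Multiset (V × List V)} {T : Multiset V} (hX : X.card ≤ W) (h : J S W q X T q')
    (K₀ H : ℕ) (h1 : (X.filter fun i => K₀ < i.2.length).card ≤ H)
    (h2 : H ≤ ((X.filter fun i => K₀ < i.2.length).map fun i => i.2.length).sum) :
    ∃ (D : Multiset (V × List (V × List V))) (T' : Multiset V) (p : Q),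
      X = D.map (tm fun u => u.flatMap Prod.snd) ∧
      (∀ i ∈ D, ∀ e ∈ i.2, e.2 ≠ []) ∧
      J S W q (D.map (tm (List.map Prod.fst))) T' p ∧
      J S W p (tl D + T'.map fun a => (a, [])) T q' ∧
      (tl D).card + T'.card ≤ W ∧
      H ≤ ((D.filter fun i => K₀ < (i.2.flatMap Prod.snd).length).map fun i => i.2.length).sum ∧
      ((D.filter fun i => K₀ < (i.2.flatMap Prod.snd).length).map fun i => i.2.length).sum ≤
        H + ρ := by
  classical
  have hcol := col_fst K₀ X
  set Xc := X.map (col K₀) with hXc
  unfold J at h
  have h' : Run S W (q, Xc.map (tm (List.map Prod.fst))) (q', fin (tl X) T) := by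
    rw [hcol]; exact h
  obtain ⟨Nc, hNc, hrun⟩ := Run.lift Prod.fst h'
  have hNc1 : ∀ i ∈ Nc, i.2.length ≤ 1 := by
    intro i hi
    have : tm (List.map Prod.fst) i ∈ fin (tl X) T := by
      rw [hNc]; exact Multiset.mem_map_of_mem _ hi
    have hl : (tm (List.map Prod.fst) i).2.length ≤ 1 := by
      rcases Multiset.mem_add.1 this with h | h
      · obtain ⟨a, _, ha⟩ := Multiset.mem_map.1 h
        rw [← ha]; simp
      · obtain ⟨a, _, ha⟩ := Multiset.mem_map.1 h
        rw [← ha]; simp
    simpa [tm] using hl
  obtain ⟨⟨p, Mc⟩, hr1, hr2, hH1, hH2⟩ := threshold (R := Stp S W)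
    (f := fun c : Q × Multiset (V × List (V × Bool)) => ff c.2) (ρ := ρ) (H := H)
    (by
      intro x y hxy
      cases hxy with
      | skip m X hm hc hW => simp
      | rw m a l R hm hc hW1 hW2 =>
        simp only [ff_cons, ff_add]
        have := hρ _ _ _ hm
        rw [List.length_map] at this
        have := ff_coe_le l
        omega) hrun
    (le_trans (ff_col_le K₀ X) h1)
    (by
      simp only
      rw [ff_end Nc hNc1, ← countP_col, Run.tl_eq hrun] at *
      exact h2)
  simp only at hH1 hH2
  have hcard : Mc.card ≤ W := Run.card_le hr1 (by rw [hXc]; simpa using hX)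
  obtain ⟨Dc, T', hDX, hM, hne, hrunD⟩ := Run.decompose hr1
  let F : V × List (V × Bool) → V × List V := fun e => (e.1, e.2.map Prod.fst)
  have hFtm : F = tm (List.map Prod.fst) := rfl
  refine ⟨Dc.map (tm (List.map F)), T', p, ?_, ?_, ?_, ?_, ?_, ?_⟩
  · rw [← hcol, hDX, Multiset.map_map, Multiset.map_map]
    refine Multiset.map_congr rfl fun i _ => ?_
    simp [tm, F, List.map_flatMap, List.flatMap_map]
  · intro i hi e he
    obtain ⟨j, hj, rfl⟩ := Multiset.mem_map.1 hi
    obtain ⟨e', he', rfl⟩ := List.mem_map.1 he
    have := hne j hj e' he'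
    simpa [F] using this
  · unfold J
    have e1 : (Dc.map (tm (List.map F))).map (tm (List.map Prod.fst)) =
        Dc.map (tm (List.map Prod.fst)) := by
      rw [Multiset.map_map]
      refine Multiset.map_congr rfl fun i _ => ?_
      simp [tm, F, Function.comp_def]
    rw [e1, tl_map_tm]
    exact hrunD
  · unfold J
    have hp := Run.push (fun e : V × Bool => [e.1]) hr2
    have hfl : (fun u : List (V × Bool) => u.flatMap fun e => [e.1]) = List.map Prod.fst := by
      funext u
      induction u with
      | nil => rfl
      | cons e u ih => simp [ih]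
    rw [hfl] at hp
    rw [← hNc] at hp
    have e2 : Mc.map (tm (List.map Prod.fst)) =
        tl (Dc.map (tm (List.map F))) + T'.map fun a => (a, []) := by
      rw [hM, Multiset.map_add, tl_map_tm, Multiset.map_map]
      rfl
    rw [e2] at hp
    have e3 : tl (tl (Dc.map (tm (List.map F))) + T'.map fun a => (a, [])) = tl X := by
      rw [← e2, tl_map_tm, Run.tl_eq hr1, ← tl_map_tm, hcol]
    rw [e3]
    exact hp
  · have := congrArg Multiset.card hM
    rw [Multiset.card_add, Multiset.card_map] at this
    rw [tl_map_tm, Multiset.card_map]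
    omega
  · have key : (((Dc.map (tm (List.map F))).filter
        fun i => K₀ < (i.2.flatMap Prod.snd).length).map fun i => i.2.length).sum = ff Mc := by
      rw [hM, ff_add]
      have z : ff (T'.map fun a => (a, ([] : List (V × Bool)))) = 0 := by
        simp [ff, hdc_nil]
      rw [z, add_zero, sum_filter_eq]
      unfold ff
      rw [sum_tl (fun e : V × List (V × Bool) => hdc e.2) Dc, Multiset.map_map]
      refine congrArg Multiset.sum (Multiset.map_congr rfl fun i hi => ?_)
      have hmem : tm (fun u : List (V × List (V × Bool)) => u.flatMap Prod.snd) i ∈ X.map (col K₀) := by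
        rw [← hXc, hDX]; exact Multiset.mem_map_of_mem _ hi
      obtain ⟨j, _, hj⟩ := Multiset.mem_map.1 hmem
      have hj2 : i.2.flatMap Prod.snd = j.2.map fun a => (a, decide (K₀ < j.2.length)) :=
        (congrArg Prod.snd hj).symm
      have hlen : (i.2.flatMap Prod.snd).length = j.2.length := by rw [hj2]; simp
      have hlen2 : ((tm (List.map F) i).2.flatMap Prod.snd).length = j.2.length := by
        rw [← hlen]
        simp [tm, F, List.flatMap_map, List.length_flatMap, Function.comp_def]
      have hh : ∀ e ∈ i.2, hdc e.2 = if K₀ < j.2.length then 1 else 0 := by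
        intro e he
        obtain ⟨c, u, hcu⟩ := List.exists_cons_of_ne_nil (hne i hi e he)
        have hc : c ∈ i.2.flatMap Prod.snd :=
          List.mem_flatMap.2 ⟨e, he, by rw [hcu]; simp⟩
        rw [hj2] at hc
        obtain ⟨a, _, rfl⟩ := List.mem_map.1 hc
        rw [hcu]
        simp [hdc]
      have hs : (i.2.map fun e => hdc e.2).sum = i.2.length * (if K₀ < j.2.length then 1 else 0) := by
        have : i.2.map (fun e => hdc e.2) = i.2.map fun _ => (if K₀ < j.2.length then 1 else 0) :=
          List.map_congr_left hh
        rw [this]; simp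
      simp only [Function.comp_apply]
      rw [hs, hlen2]
      split_ifs <;> simp [tm]
    rw [key]
    exact ⟨hH1, hH2⟩

end Pool.Agent.Lib.LinSpace.Reg
end

section

/-!
The sequence `gr`.
-/

set_option autoImplicit false

namespace Pool.Agent.Lib.LinSpace.Reg

private theorem gr_eq (j i : ℕ) (hi : i < 6) :
    gr (6 * j + i) = 2 ^ j * ([900, 1010, 1134, 1273, 1429, 1604].getD i 0) := by
  unfold gr
  rw [show (6 * j + i) / 6 = j by omega, show (6 * j + i) % 6 = i by omega]

theorem gr_step (k : ℕ) : 10 * gr k ≤ 9 * gr (k + 1) := by
  obtain ⟨j, i, hi, rfl⟩ : ∃ j i, i < 6 ∧ k = 6 * j + i :=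
    ⟨k / 6, k % 6, Nat.mod_lt _ (by norm_num), by omega⟩
  have hp : 0 < 2 ^ j := by positivity
  interval_cases i
  · rw [gr_eq _ _ (by norm_num), gr_eq j 1 (by norm_num)]; simp; omega
  · rw [gr_eq _ _ (by norm_num), gr_eq j 2 (by norm_num)]; simp; omega
  · rw [gr_eq _ _ (by norm_num), gr_eq j 3 (by norm_num)]; simp; omega
  · rw [gr_eq _ _ (by norm_num), gr_eq j 4 (by norm_num)]; simp; omega
  · rw [gr_eq _ _ (by norm_num), gr_eq j 5 (by norm_num)]; simp; omega
  · rw [gr_eq _ _ (by norm_num), show 6 * j + 5 + 1 = 6 * (j + 1) + 0 by ring,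
      gr_eq _ _ (by norm_num), pow_succ]; simp; omega

private theorem gr_digit (i : ℕ) (hi : i < 6) :
    900 ≤ [900, 1010, 1134, 1273, 1429, 1604].getD i 0 ∧
      [900, 1010, 1134, 1273, 1429, 1604].getD i 0 ≤ 1604 := by
  interval_cases i <;> simp

theorem gr_pos (k : ℕ) : 900 ≤ gr k := by
  unfold gr
  have h := (gr_digit (k % 6) (Nat.mod_lt _ (by norm_num))).1
  have hp : 1 ≤ 2 ^ (k / 6) := Nat.one_le_two_pow
  calc 900 = 1 * 900 := by norm_num
    _ ≤ _ := Nat.mul_le_mul hp h

theorem gr_le (k : ℕ) : gr k ≤ 1604 * 2 ^ (k / 6) := by
  unfold gr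
  have h := (gr_digit (k % 6) (Nat.mod_lt _ (by norm_num))).2
  rw [mul_comm]
  exact Nat.mul_le_mul_right _ h

private theorem aux1 (t : ℕ) : 3 * t + 3 ≤ 3 * 2 ^ t := by
  induction t with
  | zero => norm_num
  | succ t ih => rw [pow_succ]; omega

/-- `(s+2) 2^((s+1)/3) ≤ 20 * 2^s` -/
private theorem aux2 (s : ℕ) : (s + 2) * 2 ^ ((2 * s + 2) / 6) ≤ 8 * 2 ^ s := by
  obtain ⟨t, i, hi, rfl⟩ : ∃ t i, i < 3 ∧ s = 3 * t + i :=
    ⟨s / 3, s % 3, Nat.mod_lt _ (by norm_num), by omega⟩
  have h1 := aux1 t
  have h2 : 2 ^ (3 * t) = 2 ^ t * 2 ^ t * 2 ^ t := by rw [← pow_add, ← pow_add]; congr 1; ring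
  have hp : 1 ≤ 2 ^ t := Nat.one_le_two_pow
  interval_cases i
  · rw [show (2 * (3 * t + 0) + 2) / 6 = t by omega, add_zero, h2]
    nlinarith [Nat.mul_le_mul_right (2 ^ t) h1, Nat.mul_le_mul hp hp]
  · rw [show (2 * (3 * t + 1) + 2) / 6 = t by omega, pow_succ, h2]
    nlinarith [Nat.mul_le_mul_right (2 ^ t) h1, Nat.mul_le_mul hp hp]
  · rw [show (2 * (3 * t + 2) + 2) / 6 = t + 1 by omega, pow_add 2 (3 * t) 2, h2, pow_succ]
    nlinarith [Nat.mul_le_mul_right (2 ^ t) h1, Nat.mul_le_mul hp hp]

theorem gr_fuel : ∃ C, ∀ W, (Nat.size W + 2) * gr (2 * Nat.size W + 2) ≤ C * W + C := by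
  refine ⟨40000, fun W => ?_⟩
  have hs : 2 ^ Nat.size W ≤ 2 * W + 1 := by
    rcases Nat.eq_zero_or_pos W with h | h
    · subst h; simp
    · have h1 : 0 < Nat.size W := Nat.size_pos.2 h
      have h2 : 2 ^ (Nat.size W - 1) ≤ W := by
        have := Nat.lt_size.1 (show Nat.size W - 1 < Nat.size W by omega)
        exact this
      have h3 : 2 ^ Nat.size W = 2 * 2 ^ (Nat.size W - 1) := by
        rw [← pow_succ']; congr 1; omega
      omega
  calc (Nat.size W + 2) * gr (2 * Nat.size W + 2)
      ≤ (Nat.size W + 2) * (1604 * 2 ^ ((2 * Nat.size W + 2) / 6)) :=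
        Nat.mul_le_mul_left _ (gr_le _)
    _ = 1604 * ((Nat.size W + 2) * 2 ^ ((2 * Nat.size W + 2) / 6)) := by ring
    _ ≤ 1604 * (8 * 2 ^ Nat.size W) := Nat.mul_le_mul_left _ (aux2 _)
    _ ≤ 1604 * (8 * (2 * W + 1)) := by gcongr
    _ ≤ 40000 * W + 40000 := by omega

end Pool.Agent.Lib.LinSpace.Reg
end
end
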